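import Mathlib
import Pool.Agent.Q60.D3.Defs

/-!
# The classes generated by divisors, by Weil classes on abelian fourfolds and by the Hodge classes
on abelian varieties of CM type
-/

namespace Pool.Agent.Q60.D3C

open Pool.Agent.H204R3.CM Pool.Agent.Q60.D3

/-- The smallest system of cohomology classes `f ∈ H^κ(X, ℚ)` of complex abelian varieties `X`
(alternating forms on `H_1(X, ℚ)` in variables indexed by the finite set `κ`) which contains the
Hodge classes of degree two, the Weil classes of imaginary quadratic fields on abelian fourfolds and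
all Hodge classes on the abelian varieties of CM type, and which is stable under linear combinations,
cup products, pull-backs along homomorphisms and push-forwards along projections `X × Y → X`. -/
inductive Gen : (X : AV) → (κ : Type) → (X.H [⋀^κ]→ₗ[ℚ] ℚ) → Prop
  /-- classes of degree zero -/
  | unit {X : AV} {κ : Type} [IsEmpty κ] (f : X.H [⋀^κ]→ₗ[ℚ] ℚ) : Gen X κ f
  /-- Hodge classes of degree two -/
  | divisor {X : AV} {κ : Type} (hκ : Nat.card κ = 2) (f : X.H [⋀^κ]→ₗ[ℚ] ℚ)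
      (hf : IsHodge X.per f) : Gen X κ f
  /-- Weil classes on abelian fourfolds -/
  | weil {Y : AV} (f : Y.H [⋀^Fin 4]→ₗ[ℚ] ℚ) (hf : IsWeilClass Y f) : Gen Y (Fin 4) f
  /-- Hodge classes on abelian varieties of CM type -/
  | cm {Y : AV} {κ : Type} (hY : IsCM Y) (f : Y.H [⋀^κ]→ₗ[ℚ] ℚ) (hf : IsHodge Y.per f) : Gen Y κ f
  | zero (X : AV) (κ : Type) : Gen X κ 0
  | add {X : AV} {κ : Type} (f g : X.H [⋀^κ]→ₗ[ℚ] ℚ) (hf : Gen X κ f) (hg : Gen X κ g) :
      Gen X κ (f + g)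
  | smul {X : AV} {κ : Type} (a : ℚ) (f : X.H [⋀^κ]→ₗ[ℚ] ℚ) (hf : Gen X κ f) :
      Gen X κ (a • f)
  /-- renaming of the variables -/
  | reindex {X : AV} {κ κ' : Type} (e : κ ≃ κ') (f : X.H [⋀^κ]→ₗ[ℚ] ℚ) (hf : Gen X κ f) :
      Gen X κ' (f.domDomCongr e)
  /-- cup products (up to a factor) -/
  | cup {X : AV} {κ κ' : Type} [Fintype κ] [DecidableEq κ] [Fintype κ'] [DecidableEq κ']
      (f : X.H [⋀^κ]→ₗ[ℚ] ℚ) (g : X.H [⋀^κ']→ₗ[ℚ] ℚ) (hf : Gen X κ f) (hg : Gen X κ' g)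
      (h : X.H [⋀^κ ⊕ κ']→ₗ[ℚ] ℚ)
      (hh : ∀ v : κ ⊕ κ' → X.H, h v = ∑ σ : Equiv.Perm (κ ⊕ κ'), ((Equiv.Perm.sign σ : ℤ) : ℚ) *
        (f (fun k => v (σ (Sum.inl k))) * g (fun k => v (σ (Sum.inr k))))) :
      Gen X (κ ⊕ κ') h
  /-- pull-back along a homomorphism -/
  | pull {X Y : AV} {κ : Type} (h : X.H →ₗ[ℚ] Y.H) (hh : IsHom X Y h)
      (f : Y.H [⋀^κ]→ₗ[ℚ] ℚ) (hf : Gen Y κ f) : Gen X κ (f.compLinearMap h)
  /-- push-forward (integration over the fibres) along the projection `X × Y → X`: insert a basis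
  of `H_1(Y, ℚ)` -/
  | push {X Y : AV} {κ κ' : Type} (b : Module.Basis κ' ℚ Y.H)
      (f : (X.prod Y).H [⋀^κ ⊕ κ']→ₗ[ℚ] ℚ) (hf : Gen (X.prod Y) (κ ⊕ κ') f)
      (g : X.H [⋀^κ]→ₗ[ℚ] ℚ)
      (hg : ∀ v : κ → X.H,
        g v = f (Sum.elim (fun k => ((v k, 0) : X.H × Y.H)) (fun k => ((0, b k) : X.H × Y.H)))) :
      Gen X κ g

end Pool.Agent.Q60.D3C
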