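import Mathlib
import Pool.Agent.Q60.D3.Sgn
import Pool.Agent.Q60.D3.Stm3
import Pool.Agent.Q60.D3C.Defs

/-!
# Project D3C: statements of the lemma jobs
-/

namespace Pool.Agent.Q60.D3C

open Matrix Pool.Agent.H204R3.CM Pool.Agent.W437.HC Pool.Agent.W437.HD Pool.Agent.W437.HP
open Pool.Agent.Q60.D3 hiding Gen GC Good S_desc S_good_alt S_good_lin S_good_reindex S_good_mul
  S_good_pull S_ins S_pol S_weil S_bal S_conv S_close Mon S_cmd

/-- The complex span of the generated classes. -/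
noncomputable def GC (X : AV) (κ : Type) : Submodule ℂ (X.H [⋀^κ]→ₗ[ℚ] ℂ) :=
  Submodule.span ℂ {F | ∃ f, Gen X κ f ∧ F = cx f}

/-- The alternation of the complex valued form `F` is in the complex span of the generated
classes. -/
def Good (X : AV) (κ : Type) [Fintype κ] [DecidableEq κ]
    (F : MultilinearMap ℚ (fun _ : κ => X.H) ℂ) : Prop :=
  MultilinearMap.alternatization F ∈ GC X κ

/-- JOB GEN1. If the complex form given by the rational form `f` is in the complex span of the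
generated classes, then `f` is generated. -/
def S_desc : Prop :=
  ∀ (X : AV) (κ : Type) (f : X.H [⋀^κ]→ₗ[ℚ] ℚ), cx f ∈ GC X κ → Gen X κ f

/-- JOB GEN1. Alternating forms. -/
def S_good_alt : Prop :=
  ∀ (X : AV) (κ : Type) [Fintype κ] [DecidableEq κ] (F : X.H [⋀^κ]→ₗ[ℚ] ℂ),
    Good X κ F.toMultilinearMap ↔ F ∈ GC X κ

/-- JOB GEN1. Linear combinations. -/
def S_good_lin : Prop :=
  ∀ (X : AV) (κ : Type) [Fintype κ] [DecidableEq κ],
    (∀ F G : MultilinearMap ℚ (fun _ : κ => X.H) ℂ, Good X κ F → Good X κ G → Good X κ (F + G)) ∧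
    (∀ (c : ℂ) (F : MultilinearMap ℚ (fun _ : κ => X.H) ℂ), Good X κ F → Good X κ (c • F)) ∧
    Good X κ 0

/-- JOB GEN1. Renaming of the variables. -/
def S_good_reindex : Prop :=
  ∀ (X : AV) (κ κ' : Type) [Fintype κ] [DecidableEq κ] [Fintype κ'] [DecidableEq κ'] (e : κ ≃ κ')
    (F : MultilinearMap ℚ (fun _ : κ => X.H) ℂ), Good X κ F → Good X κ' (F.domDomCongr e)

/-- JOB GEN1. Products. -/
def S_good_mul : Prop :=
  ∀ (X : AV) (κ κ' : Type) [Fintype κ] [DecidableEq κ] [Fintype κ'] [DecidableEq κ']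
    (F : MultilinearMap ℚ (fun _ : κ => X.H) ℂ) (G : MultilinearMap ℚ (fun _ : κ' => X.H) ℂ),
    Good X κ F → Good X κ' G → Good X (κ ⊕ κ') (mulF F G)

/-- JOB GEN1. Pull-backs. -/
def S_good_pull : Prop :=
  ∀ (X Y : AV) (κ : Type) [Fintype κ] [DecidableEq κ] (h : X.H →ₗ[ℚ] Y.H), IsHom X Y h →
    ∀ F : MultilinearMap ℚ (fun _ : κ => Y.H) ℂ, Good Y κ F →
      Good X κ (F.compLinearMap fun _ => h)

/-- JOB INS. Contraction over an abelian curve `E`: if `F(x) ε(w)` and `G(x) ε'(w)` are good on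
`X × E` then `F G` is good on `X` (cup product and push-forward along `X × E → X`). -/
def S_ins : Prop :=
  ∀ (X E : AV) (κ κ' : Type) [Fintype κ] [DecidableEq κ] [Fintype κ'] [DecidableEq κ']
    (b : Module.Basis (Fin 2) ℚ E.H) (ε ε' : E.H [⋀^Fin 1]→ₗ[ℚ] ℂ),
    (ε fun _ => b 0) * (ε' fun _ => b 1) - (ε fun _ => b 1) * (ε' fun _ => b 0) ≠ 0 →
    ∀ (F : MultilinearMap ℚ (fun _ : κ => X.H) ℂ) (G : MultilinearMap ℚ (fun _ : κ' => X.H) ℂ)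
      (F' : MultilinearMap ℚ (fun _ : κ ⊕ Fin 1 => (X.prod E).H) ℂ)
      (G' : MultilinearMap ℚ (fun _ : κ' ⊕ Fin 1 => (X.prod E).H) ℂ),
    (∀ v : κ ⊕ Fin 1 → X.H × E.H,
      F' v = F (fun k => (v (Sum.inl k)).1) * ε (fun k => (v (Sum.inr k)).2)) →
    (∀ v : κ' ⊕ Fin 1 → X.H × E.H,
      G' v = G (fun k => (v (Sum.inl k)).1) * ε' (fun k => (v (Sum.inr k)).2)) →
    Good (X.prod E) (κ ⊕ Fin 1) F' → Good (X.prod E) (κ' ⊕ Fin 1) G' → Good X (κ ⊕ κ') (mulF F G)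

/-- JOB POL (polarization). If `δ(a) ε(w)` is good on `A × E` then so is
`δ(h_0 x_0, h_1 x_1, h_2 x_2) ε(w)` on `X × E`, for homomorphisms `h_k : X → A`. -/
def S_pol : Prop :=
  ∀ (X A E : AV) (δ : A.H [⋀^Fin 3]→ₗ[ℚ] ℂ) (ε : E.H [⋀^Fin 1]→ₗ[ℚ] ℂ)
    (G : MultilinearMap ℚ (fun _ : Fin 3 ⊕ Fin 1 => (A.prod E).H) ℂ),
    (∀ v : Fin 3 ⊕ Fin 1 → A.H × E.H,
      G v = δ (fun k => (v (Sum.inl k)).1) * ε (fun k => (v (Sum.inr k)).2)) →
    Good (A.prod E) (Fin 3 ⊕ Fin 1) G →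
    ∀ h : Fin 3 → (X.H →ₗ[ℚ] A.H), (∀ k, IsHom X A (h k)) →
    ∀ G' : MultilinearMap ℚ (fun _ : Fin 3 ⊕ Fin 1 => (X.prod E).H) ℂ,
    (∀ v : Fin 3 ⊕ Fin 1 → X.H × E.H,
      G' v = δ (fun k => h k (v (Sum.inl k)).1) * ε (fun k => (v (Sum.inr k)).2)) →
    Good (X.prod E) (Fin 3 ⊕ Fin 1) G'

/-- JOB WEIL. The form `δ(x) ε(w)` on `A × E`, `A` a threefold and `E` an elliptic curve, with
opposite weights and the same eigenvalue, is good. -/
def S_weil : Prop :=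
  ∀ (A E : AV) (K : KOn A 3) (L : KOn E 1), L.d = K.d → L.μ = K.μ → L.s = -K.s →
    ∀ G : MultilinearMap ℚ (fun _ : Fin 3 ⊕ Fin 1 => (A.prod E).H) ℂ,
    (∀ v : Fin 3 ⊕ Fin 1 → A.H × E.H,
      G v = K.δ (fun k => (v (Sum.inl k)).1) * L.δ (fun k => (v (Sum.inr k)).2)) →
    Good (A.prod E) (Fin 3 ⊕ Fin 1) G

/-- JOB CONV. The generated classes are Hodge classes. -/
def S_conv : Prop :=
  ∀ (X : AV) (κ : Type) (f : X.H [⋀^κ]→ₗ[ℚ] ℚ), Gen X κ f → Finite κ → IsHodge X.per f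

/-- The data of a monomial on `X`: determinant forms on threefolds composed with homomorphisms from
`X`, coordinates on abelian varieties of CM type composed with homomorphisms from `X`, and rational
bilinear Hodge forms on `X`. -/
structure Mon (X : AV) (κ : Type) where
  /-- the number of the determinants -/
  m : ℕ
  A : Fin m → AV
  D : ∀ j, KOn (A j) 3
  h : ∀ (j : Fin m), Fin 3 → (X.H →ₗ[ℚ] (A j).H)
  hh : ∀ (j : Fin m) (k : Fin 3), IsHom X (A j) (h j k)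
  /-- the number of the coordinates -/
  r : ℕ
  C : Fin r → AV
  hC : ∀ i, IsCM (C i)
  γ : ∀ i, MultilinearMap ℚ (fun _ : Fin 1 => (C i).H) ℂ
  w : Fin r → (ℂ ≃+* ℂ) → ℤ
  hw : ∀ i σ, HasWeight (C i).per (conjF σ (γ i)) (w i σ)
  u : ∀ i, X.H →ₗ[ℚ] (C i).H
  hu : ∀ i, IsHom X (C i) (u i)
  /-- the number of the bilinear forms -/
  p : ℕ
  β : Fin p → MultilinearMap ℚ (fun _ : Fin 2 => X.H) ℚ
  hβ : ∀ q, HasWeight X.per (cxM (β q)) 0
  e : ((Fin m × Fin 3) ⊕ Fin r) ⊕ (Fin p × Fin 2) ≃ κ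

/-- The value of the monomial. -/
noncomputable def Mon.val {X : AV} {κ : Type} (M : Mon X κ) (v : κ → X.H) : ℂ :=
  ((∏ j, (M.D j).δ fun k => M.h j k (v (M.e (Sum.inl (Sum.inl (j, k)))))) *
    ∏ i, M.γ i fun _ => M.u i (v (M.e (Sum.inl (Sum.inr i))))) *
    ∏ q, ((M.β q fun a => v (M.e (Sum.inr (q, a))) : ℚ) : ℂ)

/-- The monomial is balanced: all its conjugates have weight zero. -/
def Mon.Balanced {X : AV} {κ : Type} (M : Mon X κ) : Prop :=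
  ∀ σ : ℂ ≃+* ℂ, ∑ j, (M.D j).s * chi (M.D j).μ σ + ∑ i, M.w i σ = 0

/-- JOB C3. The balanced monomials are good. -/
def S_bal : Prop :=
  ∀ (X : AV) (κ : Type) [Fintype κ] [DecidableEq κ] (M : Mon X κ), M.Balanced →
    ∀ F : MultilinearMap ℚ (fun _ : κ => X.H) ℂ, (∀ v, F v = M.val v) → Good X κ F

/-- JOB C2. Elliptic curves with complex multiplication. -/
def S_ecm : Prop := ∀ (E : AV) (_ : KOn E 1), IsCM E

/-- JOB C2. Products of abelian varieties of CM type. -/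
def S_pcm : Prop := ∀ A B : AV, IsCM A → IsCM B → IsCM (A.prod B)

/-- A symplectic basis of common eigenvectors of the conjugates of the Hodge operator. -/
structure CZ {g : ℕ} (Z : Matrix (Fin g) (Fin g) ℂ) where
  u : Fin g → Fin g ⊕ Fin g → ℂ
  v : Fin g → Fin g ⊕ Fin g → ℂ
  c : Fin g → (ℂ ≃+* ℂ) → ℤ
  hc : ∀ k σ, c k σ = 1 ∨ c k σ = -1
  h1 : ∀ k, c k (RingEquiv.refl ℂ) = 1
  dual : ∀ k l, om (u k) (v l) = if k = l then 1 else 0
  hu : ∀ k (σ : ℂ ≃+* ℂ), (DZ Z).map σ *ᵥ u k = (c k σ : ℂ) • u k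
  hv : ∀ k (σ : ℂ ≃+* ℂ), (DZ Z).map σ *ᵥ v k = (-(c k σ) : ℂ) • v k

/-- JOB C4. -/
def S_cz : Prop :=
  ∀ (g : ℕ) (Z : Matrix (Fin g) (Fin g) ℂ), Zᵀ = Z → (imM Z).PosDef → Comm Z → Nonempty (CZ Z)

/-- JOB C5. The weights of the coordinates (first the coordinates `x ↦ om x (v k)`, then the
coordinates `x ↦ om (u k) x`). -/
def S_cwt : Prop :=
  ∀ (g : ℕ) (Z : Matrix (Fin g) (Fin g) ℂ), Zᵀ = Z → (imM Z).PosDef → ∀ (C : CZ Z) (k : Fin g)
    (γ : MultilinearMap ℚ (fun _ : Fin 1 => Fin g ⊕ Fin g → ℚ) ℂ),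
    ((∀ x, γ x = om (fun i => ((x 0 i : ℚ) : ℂ)) (C.v k)) →
      ∀ σ : ℂ ≃+* ℂ, HasWeight (perOne Z) (conjF σ γ) (C.c k σ.symm)) ∧
    ((∀ x, γ x = om (C.u k) (fun i => ((x 0 i : ℚ) : ℂ))) →
      ∀ σ : ℂ ≃+* ℂ, HasWeight (perOne Z) (conjF σ γ) (-(C.c k σ.symm)))

/-- JOB C7. Abelian varieties of CM type. -/
def S_cmd : Prop :=
  ∀ (A : AV) (g : ℕ) (Z : Matrix (Fin g) (Fin g) ℂ) (e : A.H ≃ₗ[ℚ] (Fin g ⊕ Fin g → ℚ))
    (C : A.T ≃ₗ[ℂ] (Fin g → ℂ)), Zᵀ = Z → (imM Z).PosDef →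
    (∀ w, C (A.per w) = perOne Z (e w)) → IsCM A → Comm Z

/-- JOB C6 (last step). If all Hodge classes on the products of principally polarized simple abelian
varieties of dimension at most three or of CM type are generated, then this holds for all abelian
varieties isogenous to a product of simple abelian varieties of dimension at most three or of CM
type. -/
def S_close : Prop :=
  (∀ (ι : Type) [Fintype ι] [DecidableEq ι] (g : ι → ℕ)
    (Z : ∀ i, Matrix (Fin (g i)) (Fin (g i)) ℂ), (∀ i, (Z i)ᵀ = Z i) → (∀ i, (imM (Z i)).PosDef) →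
    (∀ i, IsSimpleAV (Z i)) → (∀ i, g i ≤ 3 ∨ Comm (Z i)) →
    (∀ i (hZ : (Z i)ᵀ = Z i) (hpos : (imM (Z i)).PosDef), Comm (Z i) → IsCM (ofZ (Z i) hZ hpos)) →
    ∀ (Y : AV) (a : Y.H ≃ₗ[ℚ] (Fin (NB g) ⊕ Fin (NB g) → ℚ)) (c : Y.T ≃ₗ[ℂ] (Fin (NB g) → ℂ)),
    (∀ w, c (Y.per w) = perOne (bigD ℂ Z) (a w)) →
    ∀ (κ : Type) [Fintype κ] (f : Y.H [⋀^κ]→ₗ[ℚ] ℚ), IsHodge Y.per f → Gen Y κ f) →
  ∀ (ι : Type) [Finite ι] (X : AV) (A : ι → AV), IsIsogenousToProd X A → (∀ i, IsSimple (A i)) →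
    (∀ i, Module.finrank ℂ (A i).T ≤ 3 ∨ IsCM (A i)) →
    ∀ (κ : Type) [Finite κ] (f : X.H [⋀^κ]→ₗ[ℚ] ℚ), IsHodge X.per f → Gen X κ f

end Pool.Agent.Q60.D3C
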