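import Mathlib
import Pool.Agent.Q60.D3C.Stm
import Pool.Agent.Q60.D3.Cnv

/-!
# Pieces of the homology of an abelian variety
-/

set_option linter.unusedSectionVars false
set_option linter.unusedVariables false

namespace Pool.Agent.Q60.D3C

open Matrix Module Pool.Agent.H204R3.CM Pool.Agent.H204R3.SP Pool.Agent.W437.HC
  Pool.Agent.W437.HD Pool.Agent.W437.HP Pool.Agent.W437.HR Pool.Agent.W437.HQ
open Pool.Agent.Q60.D3 hiding Gen GC Good S_desc S_good_alt S_good_lin S_good_reindex S_good_mul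
  S_good_pull S_ins S_pol S_weil S_bal S_conv S_close Mon S_cmd

/-- A piece: a subspace and a dual subspace of dimension `1` or `3`. -/
structure Pie {g : ℕ} (Z : Matrix (Fin g) (Fin g) ℂ) (n : ℕ) where
  hn : n = 1 ∨ n = 3
  T : Matrix (Fin g ⊕ Fin g) (Fin g ⊕ Fin g) ℂ →ₗ[ℂ] Matrix (Fin n) (Fin n) ℂ
  zb : Bool → Fin n → Fin g ⊕ Fin g → ℂ
  zc : Bool → Fin n → ((Fin g ⊕ Fin g → ℂ) →ₗ[ℂ] ℂ)
  act_b : ∀ X ∈ lieM (DZ Z) ℂ, ∀ β c, X *ᵥ zb β c = ∑ e, sA β (T X) e c • zb β e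
  act_c : ∀ X ∈ lieM (DZ Z) ℂ, ∀ β c y, zc β c (X *ᵥ y) = ∑ e, sA β (T X) c e * zc β e y
  zcb : ∀ β c e, zc β c (zb β e) = if c = e then 1 else 0
  Tbr : ∀ X ∈ lieM (DZ Z) ℂ, ∀ Y ∈ lieM (DZ Z) ℂ, T (X * Y - Y * X) = T X * T Y - T Y * T X
  TD : ∀ l j, T (DZ Z) l j = if j = l then (if (j : ℕ) = 2 then -1 else 1) else 0
  Tsq : ∀ σ : ℂ ≃+* ℂ, T ((DZ Z).map σ) * T ((DZ Z).map σ) = 1
  Ttr : ∀ σ : ℂ ≃+* ℂ, (T ((DZ Z).map σ)).trace = 1 ∨ (T ((DZ Z).map σ)).trace = -1
  full : ∀ L : Submodule ℂ (Matrix (Fin g ⊕ Fin g) (Fin g ⊕ Fin g) ℂ),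
    (∀ X ∈ L, ∀ Y ∈ L, X * Y - Y * X ∈ L) → (∀ σ : ℂ ≃+* ℂ, (DZ Z).map σ ∈ L) →
    ∀ i j : Fin n, i ≠ j → ∃ X ∈ L, T X = Matrix.single i j 1

variable {g : ℕ} {Z : Matrix (Fin g) (Fin g) ℂ}

/-- The resolution of the identity for a symplectic basis. -/
theorem resolve_of {u v : Fin g → Fin g ⊕ Fin g → ℂ} (uu : ∀ k l, om (u k) (u l) = 0)
    (vv : ∀ k l, om (v k) (v l) = 0) (uv : ∀ k l, om (u k) (v l) = if k = l then 1 else 0)
    (y : Fin g ⊕ Fin g → ℂ) :
    y = ∑ k, om y (v k) • u k + ∑ k, om (u k) y • v k := by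
  let W : Matrix (Fin g ⊕ Fin g) (Fin g ⊕ Fin g) ℂ :=
    Matrix.of fun i s => Sum.elim (fun k => u k i) (fun k => v k i) s
  let W' : Matrix (Fin g ⊕ Fin g) (Fin g ⊕ Fin g) ℂ :=
    Matrix.of fun s i => Sum.elim (fun k => om (Pi.single i 1) (v k))
      (fun k => om (u k) (Pi.single i 1)) s
  have key1 : ∀ (x : Fin g ⊕ Fin g → ℂ) k, (W' *ᵥ x) (Sum.inl k) = om x (v k) := by
    intro x k
    have h1 : x = ∑ i, x i • (Pi.single i 1 : Fin g ⊕ Fin g → ℂ) := by
      funext j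
      rw [Finset.sum_apply, Finset.sum_eq_single j]
      · simp
      · intro b _ hb
        rw [Pi.smul_apply, Pi.single_eq_of_ne (Ne.symm hb), smul_zero]
      · intro h
        exact absurd (Finset.mem_univ _) h
    conv_rhs => rw [h1]
    rw [om_sum_left]
    change ∑ i, W' (Sum.inl k) i * x i = _
    refine Finset.sum_congr rfl fun i _ => ?_
    rw [om_smul_left, mul_comm]
    rfl
  have key2 : ∀ (x : Fin g ⊕ Fin g → ℂ) k, (W' *ᵥ x) (Sum.inr k) = om (u k) x := by
    intro x k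
    have h1 : x = ∑ i, x i • (Pi.single i 1 : Fin g ⊕ Fin g → ℂ) := by
      funext j
      rw [Finset.sum_apply, Finset.sum_eq_single j]
      · simp
      · intro b _ hb
        rw [Pi.smul_apply, Pi.single_eq_of_ne (Ne.symm hb), smul_zero]
      · intro h
        exact absurd (Finset.mem_univ _) h
    conv_rhs => rw [h1]
    rw [om_sum_right]
    change ∑ i, W' (Sum.inr k) i * x i = _
    refine Finset.sum_congr rfl fun i _ => ?_
    rw [om_smul_right, mul_comm]
    rfl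
  have hWW : W' * W = 1 := by
    ext s t
    have e1 : (W' * W) s t = (W' *ᵥ (fun i => W i t)) s := rfl
    rw [e1]
    have e2 : (fun i => W i t) = Sum.elim (fun k => u k) (fun k => v k) t := by
      rcases t with t | t <;> rfl
    rw [e2, Matrix.one_apply]
    rcases s with s | s <;> rcases t with t | t
    · rw [key1, Sum.elim_inl, uv]
      by_cases h : t = s
      · rw [if_pos h, if_pos (by rw [h])]
      · rw [if_neg h, if_neg]
        intro h'
        exact h (Sum.inl_injective h').symm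
    · rw [key1, Sum.elim_inr, vv, if_neg (by simp)]
    · rw [key2, Sum.elim_inl, uu, if_neg (by simp)]
    · rw [key2, Sum.elim_inr, uv]
      by_cases h : s = t
      · rw [if_pos h, if_pos (by rw [h])]
      · rw [if_neg h, if_neg]
        intro h'
        exact h (Sum.inr_injective h')
  have hWW' : W * W' = 1 := mul_eq_one_comm.1 hWW
  have h1 : y = W *ᵥ (W' *ᵥ y) := by rw [mulVec_mulVec, hWW', one_mulVec]
  conv_lhs => rw [h1]
  funext i
  rw [Pi.add_apply, Finset.sum_apply, Finset.sum_apply]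
  change ∑ s, W i s * (W' *ᵥ y) s = _
  rw [Fintype.sum_sum_type]
  congr 1
  · refine Finset.sum_congr rfl fun k _ => ?_
    rw [key1, Pi.smul_apply, smul_eq_mul, mul_comm]
    rfl
  · refine Finset.sum_congr rfl fun k _ => ?_
    rw [key2, Pi.smul_apply, smul_eq_mul, mul_comm]
    rfl

/-- The piece of a threefold (or of an elliptic curve). -/
noncomputable def pieK (hc : Pool.Agent.Q144.D3.S_chiz') (hZ : Zᵀ = Z) (hpos : (imM Z).PosDef)
    (K : KZ Z) (hK : KFull K) : Pie Z g where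
  hn := K.hg
  T := K.T
  zb := K.zb
  zc := K.zc
  act_b := fun X hX β c => by
    rw [K.zb_act hZ hX]
    exact Finset.sum_congr rfl fun e _ => by rw [Ts_sA]
  act_c := fun X hX β c y => by
    rw [K.zc_act hZ hX]
    exact Finset.sum_congr rfl fun e _ => by rw [Ts_sA]
  zcb := fun β c e => by
    rw [K.zc_zb]
    by_cases h : c = e
    · rw [if_pos h, if_pos ⟨rfl, h⟩]
    · rw [if_neg h, if_neg fun h' => h h'.2]
  Tbr := fun X hX Y hY => K.T_br hZ hX hY
  TD := fun l j => K.T_D l j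
  Tsq := fun σ => (T_map hc hZ hpos K σ).1
  Ttr := fun σ => by
    rw [(T_map hc hZ hpos K σ).2]
    unfold chi
    split_ifs
    · left
      simp
    · right
      simp
  full := fun L h1 h2 i j hij => by
    obtain ⟨X, hX, hX'⟩ := hK L h1 h2 i j hij
    refine ⟨X, hX, ?_⟩
    ext l c
    rw [KZ.T_apply, hX', Matrix.single_apply]
    by_cases hc1 : c = j
    · rw [if_pos hc1, KZ.uv]
      by_cases hl : i = l
      · rw [if_pos hl, if_pos ⟨hl, hc1.symm⟩]
      · rw [if_neg hl, if_neg fun h => hl h.1]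
    · rw [if_neg hc1, if_neg fun h => hc1 h.2.symm]
      unfold om
      rw [zero_dotProduct]

/-- The resolution of the identity for the piece of a threefold. -/
theorem resK (hc : Pool.Agent.Q144.D3.S_chiz') (hZ : Zᵀ = Z) (hpos : (imM Z).PosDef)
    (K : KZ Z) (hK : KFull K) (y : Fin g ⊕ Fin g → ℂ) :
    y = ∑ a : Unit, ∑ β : Bool, ∑ c, (pieK hc hZ hpos K hK).zc β c y •
      (pieK hc hZ hpos K hK).zb β c := by
  rw [Fintype.sum_unique]
  exact K.resolve_z y

theorem vec_sum (y : Fin g ⊕ Fin g → ℂ) : y = ∑ j, y j • (Pi.single j 1 : Fin g ⊕ Fin g → ℂ) := by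
  funext j
  rw [Finset.sum_apply, Finset.sum_eq_single j]
  · simp
  · intro b _ hb
    rw [Pi.smul_apply, Pi.single_eq_of_ne (Ne.symm hb), smul_zero]
  · intro h
    exact absurd (Finset.mem_univ _) h

theorem om_lin_left (y z : Fin g ⊕ Fin g → ℂ) : om y z = ∑ j, y j * om (Pi.single j 1) z := by
  conv_lhs => rw [vec_sum y]
  rw [om_sum_left]
  exact Finset.sum_congr rfl fun j _ => om_smul_left _ _ _

theorem om_lin_right (y z : Fin g ⊕ Fin g → ℂ) : om z y = ∑ j, y j * om z (Pi.single j 1) := by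
  conv_lhs => rw [vec_sum y]
  rw [om_sum_right]
  exact Finset.sum_congr rfl fun j _ => om_smul_right _ _ _

/-- Combinations of endomorphisms commute with the Lie algebra. -/
theorem comm_span (hZ : Zᵀ = Z) {M X : Matrix (Fin g ⊕ Fin g) (Fin g ⊕ Fin g) ℂ}
    (hM : M ∈ Submodule.span ℂ {Y : Matrix (Fin g ⊕ Fin g) (Fin g ⊕ Fin g) ℂ |
      ∃ N : Matrix (Fin g ⊕ Fin g) (Fin g ⊕ Fin g) ℚ, cK ℂ N * DZ Z = DZ Z * cK ℂ N ∧ Y = cK ℂ N})
    (hX : X ∈ lieM (DZ Z) ℂ) : M * X = X * M := by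
  induction hM using Submodule.span_induction with
  | mem M hM =>
    obtain ⟨N, hN, rfl⟩ := hM
    exact comm_lie hZ hN hX
  | zero => rw [Matrix.zero_mul, Matrix.mul_zero]
  | add M M' _ _ h h' => rw [Matrix.add_mul, Matrix.mul_add, h, h']
  | smul c M _ h => rw [smul_mul_assoc, mul_smul_comm, h]

namespace CZ

variable (C : CZ Z)

theorem map_refl' : (DZ Z).map (RingEquiv.refl ℂ) = DZ Z := by
  ext i j
  rfl

include C

theorem Du (k : Fin g) : DZ Z *ᵥ C.u k = C.u k := by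
  have h := C.hu k (RingEquiv.refl ℂ)
  rw [map_refl', C.h1, Int.cast_one, one_smul] at h
  exact h

theorem Dv (k : Fin g) : DZ Z *ᵥ C.v k = -C.v k := by
  have h := C.hv k (RingEquiv.refl ℂ)
  rw [map_refl', C.h1, Int.cast_one, neg_smul, one_smul] at h
  exact h

theorem uu (hZ : Zᵀ = Z) (k l : Fin g) : om (C.u k) (C.u l) = 0 := by
  have h := om_sp (sp_C hZ _ (D_mem (DZ Z))) (C.u k) (C.u l)
  rw [C.Du, C.Du] at h
  have h2 : (2 : ℂ) * om (C.u k) (C.u l) = 0 := by linear_combination h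
  exact (mul_eq_zero.1 h2).resolve_left two_ne_zero

theorem vv (hZ : Zᵀ = Z) (k l : Fin g) : om (C.v k) (C.v l) = 0 := by
  have h := om_sp (sp_C hZ _ (D_mem (DZ Z))) (C.v k) (C.v l)
  rw [C.Dv, C.Dv, om_neg_left, om_neg_right] at h
  have h2 : (2 : ℂ) * om (C.v k) (C.v l) = 0 := by linear_combination -h
  exact (mul_eq_zero.1 h2).resolve_left two_ne_zero

/-- The action of the Lie algebra on the eigenvectors. -/
theorem act_u (hZ : Zᵀ = Z) {X : Matrix (Fin g ⊕ Fin g) (Fin g ⊕ Fin g) ℂ}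
    (hX : X ∈ lieM (DZ Z) ℂ) (k : Fin g) : X *ᵥ C.u k = om (X *ᵥ C.u k) (C.v k) • C.u k := by
  let M : Matrix (Fin g ⊕ Fin g) (Fin g ⊕ Fin g) ℂ :=
    Matrix.of fun i j => om (Pi.single j 1) (C.v k) * C.u k i
  have hM : ∀ y, M *ᵥ y = om y (C.v k) • C.u k := by
    intro y
    funext i
    rw [Pi.smul_apply, smul_eq_mul, om_lin_left, Finset.sum_mul]
    change ∑ j, M i j * y j = _
    refine Finset.sum_congr rfl fun j _ => ?_
    change om (Pi.single j 1) (C.v k) * C.u k i * y j = _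
    ring
  have h1 : ∀ σ : ℂ ≃+* ℂ, M * (DZ Z).map σ = (DZ Z).map σ * M := by
    intro σ
    have h2 : ∀ y, (M * (DZ Z).map σ) *ᵥ y = ((DZ Z).map σ * M) *ᵥ y := by
      intro y
      rw [← mulVec_mulVec, ← mulVec_mulVec, hM, hM, mulVec_smul, C.hu,
        om_sp (sp_map (sp_C hZ _ (D_mem (DZ Z))) σ), C.hv, om_smul_right, smul_smul]
      congr 1
      ring
    ext i j
    have h4 := congrFun (h2 (Pi.single j 1)) i
    rw [mulVec_single_one, mulVec_single_one] at h4
    exact h4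
  have h3 : M * X = X * M := comm_span hZ (span_homs h1) hX
  have h4 : M *ᵥ C.u k = C.u k := by
    rw [hM, C.dual, if_pos rfl, one_smul]
  calc X *ᵥ C.u k = X *ᵥ (M *ᵥ C.u k) := by rw [h4]
    _ = M *ᵥ (X *ᵥ C.u k) := by rw [mulVec_mulVec, mulVec_mulVec, h3]
    _ = _ := hM _

theorem act_v (hZ : Zᵀ = Z) {X : Matrix (Fin g ⊕ Fin g) (Fin g ⊕ Fin g) ℂ}
    (hX : X ∈ lieM (DZ Z) ℂ) (k : Fin g) :
    X *ᵥ C.v k = (-om (X *ᵥ C.u k) (C.v k)) • C.v k := by
  let M : Matrix (Fin g ⊕ Fin g) (Fin g ⊕ Fin g) ℂ :=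
    Matrix.of fun i j => om (C.u k) (Pi.single j 1) * C.v k i
  have hM : ∀ y, M *ᵥ y = om (C.u k) y • C.v k := by
    intro y
    funext i
    rw [Pi.smul_apply, smul_eq_mul, om_lin_right, Finset.sum_mul]
    change ∑ j, M i j * y j = _
    refine Finset.sum_congr rfl fun j _ => ?_
    change om (C.u k) (Pi.single j 1) * C.v k i * y j = _
    ring
  have h1 : ∀ σ : ℂ ≃+* ℂ, M * (DZ Z).map σ = (DZ Z).map σ * M := by
    intro σ
    have h2 : ∀ y, (M * (DZ Z).map σ) *ᵥ y = ((DZ Z).map σ * M) *ᵥ y := by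
      intro y
      have h5 := om_sp (sp_map (sp_C hZ _ (D_mem (DZ Z))) σ) (C.u k) y
      rw [C.hu, om_smul_left] at h5
      rw [← mulVec_mulVec, ← mulVec_mulVec, hM, hM, mulVec_smul, C.hv, smul_smul]
      congr 1
      linear_combination h5
    ext i j
    have h4 := congrFun (h2 (Pi.single j 1)) i
    rw [mulVec_single_one, mulVec_single_one] at h4
    exact h4
  have h3 : M * X = X * M := comm_span hZ (span_homs h1) hX
  have h4 : M *ᵥ C.v k = C.v k := by
    rw [hM, C.dual, if_pos rfl, one_smul]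
  calc X *ᵥ C.v k = X *ᵥ (M *ᵥ C.v k) := by rw [h4]
    _ = M *ᵥ (X *ᵥ C.v k) := by rw [mulVec_mulVec, mulVec_mulVec, h3]
    _ = _ := by
      rw [hM, om_sp (sp_C hZ X hX), neg_neg]

/-- The action on the first line. -/
noncomputable def T (k : Fin g) :
    Matrix (Fin g ⊕ Fin g) (Fin g ⊕ Fin g) ℂ →ₗ[ℂ] Matrix (Fin 1) (Fin 1) ℂ where
  toFun X := Matrix.of fun _ _ => om (X *ᵥ C.u k) (C.v k)
  map_add' X Y := by
    ext i j
    change om ((X + Y) *ᵥ C.u k) (C.v k) = om (X *ᵥ C.u k) (C.v k) + om (Y *ᵥ C.u k) (C.v k)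
    rw [add_mulVec, om_add_left]
  map_smul' c X := by
    ext i j
    change om ((c • X) *ᵥ C.u k) (C.v k) = c * om (X *ᵥ C.u k) (C.v k)
    rw [smul_mulVec, om_smul_left]

theorem T_apply (k : Fin g) (X) (i j : Fin 1) : C.T k X i j = om (X *ᵥ C.u k) (C.v k) := rfl

theorem T_map (k : Fin g) (σ : ℂ ≃+* ℂ) (i j : Fin 1) :
    C.T k ((DZ Z).map σ) i j = (C.c k σ : ℂ) := by
  rw [T_apply, C.hu, om_smul_left, C.dual, if_pos rfl, mul_one]

/-- The coordinates. -/
noncomputable def zc (k : Fin g) (β : Bool) (c : Fin 1) : (Fin g ⊕ Fin g → ℂ) →ₗ[ℂ] ℂ :=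
  match β with
  | true =>
    { toFun := fun y => om y (C.v k)
      map_add' := fun x y => om_add_left _ _ _
      map_smul' := fun a y => om_smul_left _ _ _ }
  | false =>
    { toFun := fun y => om (C.u k) y
      map_add' := fun x y => om_add_right _ _ _
      map_smul' := fun a y => om_smul_right _ _ _ }

/-- The vectors. -/
def zb (k : Fin g) (β : Bool) (c : Fin 1) : Fin g ⊕ Fin g → ℂ :=
  match β with
  | true => C.u k
  | false => C.v k

end CZ

theorem sA_one_apply (β : Bool) (A : Matrix (Fin 1) (Fin 1) ℂ) (i j : Fin 1) :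
    sA β A i j = sgn β * A 0 0 := by
  have hi : i = 0 := Subsingleton.elim _ _
  have hj : j = 0 := Subsingleton.elim _ _
  subst hi hj
  cases β
  · rw [sA_false, Matrix.neg_apply, rt_apply]
    have h0 : Fin.rev (0 : Fin 1) = 0 := Subsingleton.elim _ _
    rw [h0]
    change _ = -1 * A 0 0
    ring
  · rw [sA_true]
    change _ = 1 * A 0 0
    ring

/-- The pieces of an abelian variety of CM type. -/
noncomputable def pieC (hZ : Zᵀ = Z) (C : CZ Z) (k : Fin g) : Pie Z 1 where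
  hn := Or.inl rfl
  T := C.T k
  zb := C.zb k
  zc := C.zc k
  act_b := fun X hX β c => by
    rw [Fintype.sum_unique, sA_one_apply]
    cases β
    · change X *ᵥ C.v k = (-1 * om (X *ᵥ C.u k) (C.v k)) • C.v k
      rw [neg_one_mul]
      exact C.act_v hZ hX k
    · change X *ᵥ C.u k = (1 * om (X *ᵥ C.u k) (C.v k)) • C.u k
      rw [one_mul]
      exact C.act_u hZ hX k
  act_c := fun X hX β c y => by
    rw [Fintype.sum_unique, sA_one_apply]
    cases β
    · change om (C.u k) (X *ᵥ y) = (-1 * om (X *ᵥ C.u k) (C.v k)) * om (C.u k) y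
      have h := om_sp (sp_C hZ X hX) (C.u k) y
      rw [C.act_u hZ hX, om_smul_left] at h
      rw [neg_one_mul]
      linear_combination h
    · change om (X *ᵥ y) (C.v k) = (1 * om (X *ᵥ C.u k) (C.v k)) * om y (C.v k)
      rw [om_sp (sp_C hZ X hX), C.act_v hZ hX, om_smul_right]
      ring
  zcb := fun β c e => by
    rw [if_pos (Subsingleton.elim _ _)]
    cases β
    · change om (C.u k) (C.v k) = 1
      rw [C.dual, if_pos rfl]
    · change om (C.u k) (C.v k) = 1
      rw [C.dual, if_pos rfl]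
  Tbr := fun X hX Y hY => by
    ext i j
    have h1 : ∀ {X Y : Matrix (Fin g ⊕ Fin g) (Fin g ⊕ Fin g) ℂ}, X ∈ lieM (DZ Z) ℂ →
        Y ∈ lieM (DZ Z) ℂ → C.T k (X * Y) i j = C.T k X i j * C.T k Y i j := by
      intro X Y hX hY
      have e1 := C.act_u hZ hY k
      rw [C.T_apply, C.T_apply, C.T_apply, ← mulVec_mulVec]
      obtain ⟨t, ht⟩ : ∃ t, t = om (Y *ᵥ C.u k) (C.v k) := ⟨_, rfl⟩
      rw [← ht] at e1 ⊢
      rw [e1, mulVec_smul, om_smul_left, mul_comm]
    rw [map_sub, Matrix.sub_apply, h1 hX hY, h1 hY hX, Matrix.sub_apply, Matrix.mul_apply,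
      Matrix.mul_apply, Fintype.sum_unique, Fintype.sum_unique]
    have hi : i = default := Subsingleton.elim _ _
    have hj : j = default := Subsingleton.elim _ _
    rw [hi, hj]
  TD := fun l j => by
    rw [C.T_apply, C.Du, C.dual, if_pos rfl, if_pos (Subsingleton.elim _ _), if_neg]
    have := j.2
    omega
  Tsq := fun σ => by
    ext i j
    have hij : i = j := Subsingleton.elim _ _
    rw [Matrix.mul_apply, Fintype.sum_unique, C.T_map, C.T_map, hij, Matrix.one_apply_eq]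
    rcases C.hc k σ with h | h <;> · rw [h]; norm_num
  Ttr := fun σ => by
    have h1 : (C.T k ((DZ Z).map σ)).trace = (C.c k σ : ℂ) := by
      unfold Matrix.trace
      rw [Fintype.sum_unique]
      exact C.T_map k σ _ _
    rw [h1]
    rcases C.hc k σ with h | h
    · left
      rw [h, Int.cast_one]
    · right
      rw [h, Int.cast_neg, Int.cast_one]
  full := fun L _ _ i j hij => absurd (Subsingleton.elim i j) hij

/-- The resolution of the identity for the pieces of an abelian variety of CM type. -/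
theorem resC (hZ : Zᵀ = Z) (C : CZ Z) (y : Fin g ⊕ Fin g → ℂ) :
    y = ∑ k : Fin g, ∑ β : Bool, ∑ c, (pieC hZ C k).zc β c y • (pieC hZ C k).zb β c := by
  conv_lhs => rw [resolve_of (C.uu hZ) (C.vv hZ) C.dual y]
  rw [← Finset.sum_add_distrib]
  refine Finset.sum_congr rfl fun k _ => ?_
  rw [Fintype.sum_bool, Fintype.sum_unique, Fintype.sum_unique]
  rfl

end Pool.Agent.Q60.D3C
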