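import Mathlib
import Pool.Agent.Q60.D3C.Pie

/-!
# The frame of a product of abelian varieties
-/

set_option linter.unusedSectionVars false
set_option linter.unusedVariables false

namespace Pool.Agent.Q60.D3C

open Matrix Module Pool.Agent.H204R3.CM Pool.Agent.H204R3.SP Pool.Agent.W437.HC
  Pool.Agent.W437.HD Pool.Agent.W437.HP Pool.Agent.W437.HR Pool.Agent.W437.HQ
open Pool.Agent.Q60.D3 hiding Gen GC Good S_desc S_good_alt S_good_lin S_good_reindex S_good_mul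
  S_good_pull S_ins S_pol S_weil S_bal S_conv S_close Mon S_cmd

variable {ι : Type} [Fintype ι] [DecidableEq ι] {g : ι → ℕ}
  (Z : ∀ i, Matrix (Fin (g i)) (Fin (g i)) ℂ) (hZ : ∀ i, (Z i)ᵀ = Z i)
  (hpos : ∀ i, (imM (Z i)).PosDef)

/-- The matrices on the pieces. -/
noncomputable def TP {𝒦 : Type} (t : 𝒦 → ι) (n : 𝒦 → ℕ) (P : ∀ k, Pie (Z (t k)) (n k)) (k : 𝒦) :
    lieM (DZ (bigD ℂ Z)) ℂ →ₗ[ℂ] Matrix (Fin (n k)) (Fin (n k)) ℂ :=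
  (P k).T ∘ₗ (Submodule.subtype _) ∘ₗ ((blocksOf Z hZ hpos).blL (t k))

theorem TP_apply {𝒦 : Type} (t : 𝒦 → ι) (n : 𝒦 → ℕ) (P : ∀ k, Pie (Z (t k)) (n k)) (k : 𝒦)
    (X : lieM (DZ (bigD ℂ Z)) ℂ) :
    TP Z hZ hpos t n P k X = (P k).T ((blocksOf Z hZ hpos).bl ℂ (t k) X.1) := rfl

theorem TP_sD {𝒦 : Type} (t : 𝒦 → ι) (n : 𝒦 → ℕ) (P : ∀ k, Pie (Z (t k)) (n k)) (k : 𝒦)
    (σ : ℂ ≃+* ℂ) :
    TP Z hZ hpos t n P k (sD (DZ (bigD ℂ Z)) σ) = (P k).T ((DZ (Z (t k))).map σ) := by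
  rw [TP_apply, bl_sD]

/-- The expansion of the Hodge tensors on a product. -/
theorem hodge_span (hgrs : S_grs) (hsps : S_sps) (hdarb : S_darb) (hexp : S_exp)
    (Q : ∀ (i : ι) (n : ℕ), Pie (Z i) n → Prop)
    (hdata : ∀ i, HasPcs (DZ (Z i)) ∨ ∃ (A : Type) (_ : Fintype A) (n : A → ℕ)
      (P : ∀ a, Pie (Z i) (n a)), (∀ a, Q i (n a) (P a)) ∧
        ∀ y, y = ∑ a, ∑ β : Bool, ∑ c, (P a).zc β c y • (P a).zb β c) :
    ∃ (𝒦 : Type) (t : 𝒦 → ι) (n : 𝒦 → ℕ) (P : ∀ k, Pie (Z (t k)) (n k)),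
      (∀ k, Q (t k) (n k) (P k)) ∧ ∀ (κ : Type) [Fintype κ] [DecidableEq κ]
      (c : (κ → Fin (NB g) ⊕ Fin (NB g)) → ℚ), IsH (DZ (bigD ℂ Z)) c →
      cst ℂ c ∈ Submodule.span ℂ (Frm.Prods (DZ (bigD ℂ Z)) (TP Z hZ hpos t n P) κ) := by
  classical
  obtain ⟨b, hb⟩ : ∃ b, b = blocksOf Z hZ hpos := ⟨_, rfl⟩
  have hnd := blocksOf_nondeg Z hZ hpos
  have hD2 : ∀ i, DZ (Z i) * DZ (Z i) = 1 :=
    fun i => DZ_sq ((hpos i).isUnit.map Matrix.detMonoidHom)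
  rw [← hb] at hnd
  let I1 := {i // HasPcs (DZ (Z i))}
  let I2 := {i // ¬ HasPcs (DZ (Z i))}
  have hp : ∀ i : I1, HasPcs (DZ (Z i.1)) := fun i => i.2
  choose A hA1 hA2 N w π hst hsum hnt halt hnon hsp hful hπ using hp
  have hq : ∀ i : I2, ∃ (A : Type) (_ : Fintype A) (n : A → ℕ)
      (P : ∀ a, Pie (Z i.1) (n a)), (∀ a, Q i.1 (n a) (P a)) ∧
        ∀ y, y = ∑ a, ∑ β : Bool, ∑ c, (P a).zc β c y • (P a).zb β c :=
    fun i => (hdata i.1).resolve_left i.2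
  choose A' hA' n' P' hP' hres' using hq
  let s : Sys (lieM (DZ (bigD ℂ Z)) ℂ) (brL (DZ (bigD ℂ Z)))
      (N := fun a : (Σ i, A i) => ↥(N a.1 a.2)) :=
    { w := fun a => w a.1 a.2
      ρ := fun a => (rsN (N a.1 a.2) (hst a.1 a.2)) ∘ₗ b.blL a.1.1
      alt := fun a x => halt a.1 a.2 x
      nd := fun a x hx => hnon a.1 a.2 x hx
      brk := fun a X Y => by
        rw [LinearMap.comp_apply, b.blL_brL, rsN_brL]
        rfl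
      sp := fun a X => hsp a.1 a.2 (b.blL a.1.1 X)
      full := fun a x y => Pool.Agent.W437.HR.Blocks.full b a.1.1 (hnd a.1.1) (hD2 a.1.1)
        (N a.1 a.2) (w a.1 a.2) (hst a.1 a.2) (hnt a.1 a.2) (halt a.1 a.2) (hnon a.1 a.2)
        (hsp a.1 a.2) (hful a.1 a.2) x y }
  have hntn : ∀ a : (Σ i, A i), Nontrivial ↥(N a.1 a.2) := fun a => hnt a.1 a.2
  let 𝒦 := Σ i : I2, A' i
  let t : 𝒦 → ι := fun k => k.1.1
  let n : 𝒦 → ℕ := fun k => n' k.1 k.2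
  let P : ∀ k : 𝒦, Pie (Z (t k)) (n k) := fun k => P' k.1 k.2
  have hTb : ∀ (k : 𝒦) (X : lieM (DZ (bigD ℂ Z)) ℂ),
      TP Z hZ hpos t n P k X = (P k).T (b.bl ℂ (t k) X.1) := by
    intro k X
    rw [hb]
    rfl
  have hbm : ∀ (i : ι) (X : lieM (DZ (bigD ℂ Z)) ℂ), b.bl ℂ i X.1 ∈ lieM (DZ (Z i)) ℂ :=
    fun i X => b.bl_mem X.2 i
  have hFF := exists_frm (D := DZ (bigD ℂ Z)) (br := brL (DZ (bigD ℂ Z)))
    (n := n) hdarb s (TP Z hZ hpos t n P) (fun k => (P k).hn)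
    (fun a => (Matrix.mulVecLin (cK ℂ (b.P a.1.1))ᵀ) ∘ₗ (N a.1 a.2).subtype)
    (fun a => (π a.1 a.2) ∘ₗ (Matrix.mulVecLin (cK ℂ (b.P a.1.1)))) ?_ ?_
    (fun k β c => (cK ℂ (b.P (t k)))ᵀ *ᵥ (P k).zb β c)
    (fun k β c => (P k).zc β c ∘ₗ Matrix.mulVecLin (cK ℂ (b.P (t k)))) ?_ ?_ ?_
  · obtain ⟨F, hF1, hF2, -, -⟩ := hFF
    refine ⟨𝒦, t, n, P, fun k => hP' k.1 k.2, fun κ _ _ c hc' => ?_⟩
    have h1 := F.out hexp hsps ?_ c hc'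
    · rw [hF2] at h1
      exact h1
    · rw [hF1, hF2]
      refine lifts s (TP Z hZ hpos t n P) (CC (DZ (bigD ℂ Z))) hgrs
        (fun k => (P k).hn) ?_ ?_ ?_ ?_ ⟨DZ (bigD ℂ Z), D_mem _⟩ ?_ ?_
      · intro k X Y
        rw [hTb, hTb, hTb, ← (P k).Tbr _ (hbm (t k) X) _ (hbm (t k) Y)]
        congr 1
        exact b.bl_bracket X.2 Y.2 (t k)
      · intro k i j hij
        have h7 := (P k).full ((lieM (DZ (bigD ℂ Z)) ℂ).map (b.bl ℂ (t k))) ?_ ?_ i j hij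
        · obtain ⟨X, hX, hX'⟩ := h7
          obtain ⟨Y, hY, rfl⟩ := hX
          refine ⟨⟨Y, hY⟩, ?_⟩
          rw [hTb]
          exact hX'
        · rintro _ ⟨X, hX, rfl⟩ _ ⟨Y, hY, rfl⟩
          exact ⟨X * Y - Y * X, lieM_bracket _ hX hY, b.bl_bracket hX hY (t k)⟩
        · intro σ
          refine ⟨(sD (DZ (bigD ℂ Z)) σ).1, (sD (DZ (bigD ℂ Z)) σ).2, ?_⟩
          rw [hb, bl_sD]
      · rintro _ ⟨σ, rfl⟩ k
        rw [TP_sD]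
        exact (P k).Tsq σ
      · rintro _ ⟨σ, rfl⟩ k
        rw [TP_sD]
        exact (P k).Ttr σ
      · intro k l j
        rw [hTb]
        change (P k).T (b.bl ℂ (t k) (DZ (bigD ℂ Z))) l j = _
        rw [b.bl_D, (P k).TD]
      · intro a
        refine LinearMap.ext fun x => Subtype.ext ?_
        change (b.bl ℂ a.1.1 (DZ (bigD ℂ Z))) *ᵥ ((b.bl ℂ a.1.1 (DZ (bigD ℂ Z))) *ᵥ
          (x : Fin (g a.1.1) ⊕ Fin (g a.1.1) → ℂ)) = (x : Fin (g a.1.1) ⊕ Fin (g a.1.1) → ℂ)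
        rw [b.bl_D, mulVec_mulVec, hD2, one_mulVec]
  · intro a X u
    change X.1 *ᵥ ((cK ℂ (b.P a.1.1))ᵀ *ᵥ (u : Fin (g a.1.1) ⊕ Fin (g a.1.1) → ℂ)) =
      (cK ℂ (b.P a.1.1))ᵀ *ᵥ (b.bl ℂ a.1.1 X.1 *ᵥ (u : Fin (g a.1.1) ⊕ Fin (g a.1.1) → ℂ))
    rw [mulVec_mulVec, mulVec_mulVec, b.mul_inc X.2]
  · intro a X y
    apply Subtype.ext
    change (π a.1 a.2 (cK ℂ (b.P a.1.1) *ᵥ (X.1 *ᵥ y)) : Fin (g a.1.1) ⊕ Fin (g a.1.1) → ℂ) =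
      b.bl ℂ a.1.1 X.1 *ᵥ
        (π a.1 a.2 (cK ℂ (b.P a.1.1) *ᵥ y) : Fin (g a.1.1) ⊕ Fin (g a.1.1) → ℂ)
    rw [mulVec_mulVec, b.prj_mul X.2, ← mulVec_mulVec, hπ a.1 a.2 _ (b.bl_mem X.2 a.1.1)]
  · intro k β c X
    rw [mulVec_mulVec, b.mul_inc X.2, ← mulVec_mulVec, (P k).act_b _ (hbm (t k) X),
      mulVec_sum]
    refine Finset.sum_congr rfl fun e _ => ?_
    rw [mulVec_smul, hTb]
  · intro k β c X y
    change (P k).zc β c (cK ℂ (b.P (t k)) *ᵥ (X.1 *ᵥ y)) = _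
    rw [mulVec_mulVec, b.prj_mul X.2, ← mulVec_mulVec, (P k).act_c _ (hbm (t k) X)]
    refine Finset.sum_congr rfl fun e _ => ?_
    rw [hTb]
    rfl
  · intro y
    have h1 : y = ∑ i, (cK ℂ (b.P i))ᵀ *ᵥ (cK ℂ (b.P i) *ᵥ y) := by
      conv_lhs => rw [← one_mulVec y, ← b.totK, sum_mulVec]
      exact Finset.sum_congr rfl fun i _ => (mulVec_mulVec _ _ _).symm
    conv_lhs => rw [h1]
    rw [← Fintype.sum_subtype_add_sum_subtype (fun i => HasPcs (DZ (Z i)))]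
    congr 1
    · rw [Fintype.sum_sigma]
      refine Finset.sum_congr rfl fun i _ => ?_
      conv_lhs => rw [hsum i (cK ℂ (b.P i.1) *ᵥ y)]
      rw [mulVec_sum]
      rfl
    · rw [Fintype.sum_sigma]
      refine Finset.sum_congr rfl fun i _ => ?_
      conv_lhs => rw [hres' i (cK ℂ (b.P i.1) *ᵥ y)]
      rw [mulVec_sum]
      refine Finset.sum_congr rfl fun a _ => ?_
      rw [mulVec_sum]
      refine Finset.sum_congr rfl fun β _ => ?_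
      rw [mulVec_sum]
      refine Finset.sum_congr rfl fun c _ => ?_
      rw [mulVec_smul]
      rfl

end Pool.Agent.Q60.D3C
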