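import Mathlib
import Pool.Agent.Q60.D3C.Dat
import Pool.Agent.Q60.D3.Fin

/-!
# The products in the expansion of a Hodge class and the balanced monomials
-/

set_option linter.unusedSectionVars false
set_option linter.unusedVariables false

namespace Pool.Agent.Q60.D3C

open Matrix Module Pool.Agent.H204R3.CM Pool.Agent.H204R3.SP Pool.Agent.W437.HC
  Pool.Agent.W437.HD Pool.Agent.W437.HP Pool.Agent.W437.HR Pool.Agent.W437.HQ
open Pool.Agent.Q60.D3 hiding Gen GC Good S_desc S_good_alt S_good_lin S_good_reindex S_good_mul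
  S_good_pull S_ins S_pol S_weil S_bal S_conv S_close Mon S_cmd

section lin

variable {B : Type} [Fintype B] [DecidableEq B]
  {g : ℕ} {Z : Matrix (Fin g) (Fin g) ℂ} {D : Matrix B B ℂ} {n : ℕ}

/-- The functionals given by a matrix. -/
noncomputable def fP (P : Pie Z n) (β : Bool) :
    Matrix (Fin g ⊕ Fin g) B ℂ →ₗ[ℂ] (ℕ → ((B → ℂ) →ₗ[ℂ] ℂ)) where
  toFun M := eN fun b => P.zc β b ∘ₗ Matrix.mulVecLin M
  map_add' M M' := by
    funext b
    change eN _ b = eN _ b + eN _ b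
    unfold eN
    by_cases h : b < n
    · rw [dif_pos h, dif_pos h, dif_pos h]
      refine LinearMap.ext fun y => ?_
      change P.zc β _ ((M + M') *ᵥ y) = P.zc β _ (M *ᵥ y) + P.zc β _ (M' *ᵥ y)
      rw [add_mulVec, map_add]
    · rw [dif_neg h, dif_neg h, dif_neg h, add_zero]
  map_smul' c M := by
    funext b
    change eN _ b = c • eN _ b
    unfold eN
    by_cases h : b < n
    · rw [dif_pos h, dif_pos h]
      refine LinearMap.ext fun y => ?_
      change P.zc β _ ((c • M) *ᵥ y) = c • P.zc β _ (M *ᵥ y)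
      rw [smul_mulVec, map_smul]
    · rw [dif_neg h, dif_neg h, smul_zero]

theorem fP_apply (P : Pie Z n) (β : Bool) (M : Matrix (Fin g ⊕ Fin g) B ℂ) (b : Fin n)
    (y : B → ℂ) : fP P β M (b : ℕ) y = P.zc β b (M *ᵥ y) := by
  change eN _ (b : ℕ) y = _
  rw [eN_apply]
  rfl

/-- Equivariant coordinates come from homomorphisms. -/
theorem span_fun (P : Pie Z n) (β : Bool) (φ : Fin n → ((B → ℂ) →ₗ[ℂ] ℂ))
    (h : ∀ (b : Fin n) (σ : ℂ ≃+* ℂ) y, φ b (D.map σ *ᵥ y) =
      ∑ z, sA β (P.T ((DZ Z).map σ)) b z * φ z y) :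
    eN φ ∈ Submodule.span ℂ {ψ | ∃ N : Matrix (Fin g ⊕ Fin g) B ℚ,
      cK ℂ N * D = DZ Z * cK ℂ N ∧ ψ = fP P β (cK ℂ N)} := by
  let M : Matrix (Fin g ⊕ Fin g) B ℂ :=
    Matrix.of fun i j => ∑ b, φ b (Pi.single j 1) * P.zb β b i
  have hM : ∀ y : B → ℂ, M *ᵥ y = ∑ b, φ b y • P.zb β b := by
    intro y
    funext i
    rw [Finset.sum_apply]
    simp only [Pi.smul_apply, smul_eq_mul, mulVec, dotProduct, M, Matrix.of_apply, Finset.sum_mul]
    rw [Finset.sum_comm]
    refine Finset.sum_congr rfl fun b _ => ?_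
    rw [lin_sum (φ b) y, Finset.sum_mul]
    exact Finset.sum_congr rfl fun j _ => by ring
  have h1 : ∀ σ : ℂ ≃+* ℂ, M * D.map σ = (DZ Z).map σ * M := by
    intro σ
    have h2 : ∀ y : B → ℂ, (M * D.map σ) *ᵥ y = ((DZ Z).map σ * M) *ᵥ y := by
      intro y
      rw [← mulVec_mulVec, ← mulVec_mulVec, hM, hM, mulVec_sum]
      have h3 : ∀ z, (DZ Z).map σ *ᵥ (φ z y • P.zb β z) =
          ∑ b, (sA β (P.T ((DZ Z).map σ)) b z * φ z y) • P.zb β b := by
        intro z
        have h5 : (DZ Z).map σ ∈ lieM (DZ Z) ℂ := map_mem_aut (D_mem (DZ Z)) (σ : ℂ →+* ℂ)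
        rw [mulVec_smul, P.act_b _ h5, Finset.smul_sum]
        refine Finset.sum_congr rfl fun b _ => ?_
        rw [smul_smul, mul_comm]
      rw [Finset.sum_congr rfl fun z _ => h3 z, Finset.sum_comm]
      refine Finset.sum_congr rfl fun b _ => ?_
      rw [h, Finset.sum_smul]
    ext i j
    have h4 := congrFun (h2 (Pi.single j 1)) i
    rw [mulVec_single_one, mulVec_single_one] at h4
    exact h4
  have h2 : eN φ = fP P β M := by
    funext b
    by_cases hb : b < n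
    · refine LinearMap.ext fun y => ?_
      have e1 := eN_apply φ ⟨b, hb⟩
      have e2 := fP_apply P β M ⟨b, hb⟩ y
      simp only at e1 e2
      rw [e1, e2, hM, map_sum, Finset.sum_eq_single ⟨b, hb⟩]
      · rw [map_smul, P.zcb, if_pos rfl, smul_eq_mul, mul_one]
      · intro c _ hc
        rw [map_smul, P.zcb, if_neg fun h => hc h.symm, smul_zero]
      · intro h
        exact absurd (Finset.mem_univ _) h
    · change eN φ b = eN (fun b => P.zc β b ∘ₗ Matrix.mulVecLin M) b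
      unfold eN
      rw [dif_neg hb, dif_neg hb]
  rw [h2]
  have h3 := Submodule.mem_map_of_mem (f := fP (B := B) P β) (span_homs h1)
  rw [Submodule.map_span] at h3
  refine Submodule.span_mono ?_ h3
  rintro _ ⟨_, ⟨N, hN, rfl⟩, rfl⟩
  exact ⟨N, hN, rfl⟩

end lin

/-- Determinants and casts. -/
theorem det_cast {n n' : ℕ} (h : n = n') (M : Matrix (Fin n') (Fin n') ℂ) :
    (Matrix.of fun a b : Fin n => M (Fin.cast h a) (Fin.cast h b)).det = M.det := by
  subst h
  rfl

/-- Numbering of the letters: first the blocks of length three, then the blocks of length one. -/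
theorem exists_split {l : ℕ} (n : Fin l → ℕ) (hn : ∀ j, 3 = n j ∨ 1 = n j) :
    ∃ (m r : ℕ) (e3 : Fin m ≃ {j // 3 = n j}) (e1 : Fin r ≃ {j // ¬ 3 = n j})
      (h1 : ∀ i, 1 = n (e1 i).1)
      (E : (Fin m × Fin 3) ⊕ Fin r ≃ Σ j : Fin l, Fin (n j)),
      (∀ j k, E (Sum.inl (j, k)) = ⟨(e3 j).1, Fin.cast (e3 j).2 k⟩) ∧
      (∀ i, E (Sum.inr i) = ⟨(e1 i).1, Fin.cast (h1 i) 0⟩) := by
  classical
  have e3 : Fin (Fintype.card {j // 3 = n j}) ≃ {j // 3 = n j} := (Fintype.equivFin _).symm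
  have e1 : Fin (Fintype.card {j // ¬ 3 = n j}) ≃ {j // ¬ 3 = n j} := (Fintype.equivFin _).symm
  have h1 : ∀ i, 1 = n (e1 i).1 := fun i => (hn _).resolve_left (e1 i).2
  let F : (Fin (Fintype.card {j // 3 = n j}) × Fin 3) ⊕ Fin (Fintype.card {j // ¬ 3 = n j}) →
      Σ j : Fin l, Fin (n j) :=
    Sum.elim (fun jk => ⟨(e3 jk.1).1, Fin.cast (e3 jk.1).2 jk.2⟩)
      (fun i => ⟨(e1 i).1, Fin.cast (h1 i) 0⟩)
  have hF : Function.Bijective F := by
    constructor
    · rintro (⟨j, k⟩ | i) (⟨j', k'⟩ | i') h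
      · have h2 : (e3 j).1 = (e3 j').1 := congrArg Sigma.fst h
        have h3 : j = j' := e3.injective (Subtype.ext h2)
        subst h3
        have h4 := eq_of_heq (Sigma.mk.inj_iff.mp h).2
        have h5 : k = k' := Fin.cast_injective _ h4
        rw [h5]
      · exfalso
        have h2 : (e3 j).1 = (e1 i').1 := congrArg Sigma.fst h
        apply (e1 i').2
        rw [← h2]
        exact (e3 j).2
      · exfalso
        have h2 : (e1 i).1 = (e3 j').1 := congrArg Sigma.fst h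
        apply (e1 i).2
        rw [h2]
        exact (e3 j').2
      · have h2 : (e1 i).1 = (e1 i').1 := congrArg Sigma.fst h
        have h3 : i = i' := e1.injective (Subtype.ext h2)
        rw [h3]
    · rintro ⟨j, a⟩
      by_cases h : 3 = n j
      · refine ⟨Sum.inl (e3.symm ⟨j, h⟩, Fin.cast h.symm a), ?_⟩
        change (⟨(e3 (e3.symm ⟨j, h⟩)).1, Fin.cast _ (Fin.cast h.symm a)⟩ :
          Σ j : Fin l, Fin (n j)) = ⟨j, a⟩
        have h2 : ∀ (q : {j // 3 = n j}) (hq : q = ⟨j, h⟩),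
            (⟨q.1, Fin.cast q.2 (Fin.cast h.symm a)⟩ : Σ j : Fin l, Fin (n j)) = ⟨j, a⟩ := by
          rintro q rfl
          rfl
        exact h2 _ (e3.apply_symm_apply _)
      · refine ⟨Sum.inr (e1.symm ⟨j, h⟩), ?_⟩
        change (⟨(e1 (e1.symm ⟨j, h⟩)).1, Fin.cast (h1 _) 0⟩ :
          Σ j : Fin l, Fin (n j)) = ⟨j, a⟩
        have h2 : ∀ (q : {j // ¬ 3 = n j}) (hq1 : 1 = n q.1) (hq : q = ⟨j, h⟩),
            (⟨q.1, Fin.cast hq1 0⟩ : Σ j : Fin l, Fin (n j)) = ⟨j, a⟩ := by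
          rintro q hq1 rfl
          have h5 : Fin.cast hq1 0 = a := by
            apply Fin.ext
            have h6 := a.2
            have h7 : ((Fin.cast hq1 0 : Fin (n j)) : ℕ) = 0 := rfl
            rw [h7]
            change 1 = n j at hq1
            omega
          rw [h5]
        exact h2 _ _ (e1.apply_symm_apply _)
  exact ⟨_, _, e3, e1, h1, Equiv.ofBijective F hF, fun j k => rfl, fun i => rfl⟩

theorem prod_split {l m r : ℕ} {n : Fin l → ℕ} (e3 : Fin m ≃ {j // 3 = n j})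
    (e1 : Fin r ≃ {j // ¬ 3 = n j}) (f : Fin l → ℂ) :
    ∏ j, f j = (∏ j, f (e3 j).1) * ∏ i, f (e1 i).1 := by
  classical
  rw [← Fintype.prod_subtype_mul_prod_subtype (fun j => 3 = n j) f]
  congr 1
  · exact (Equiv.prod_comp e3 fun j => f j.1).symm
  · exact (Equiv.prod_comp e1 fun j => f j.1).symm

theorem sum_split {l m r : ℕ} {n : Fin l → ℕ} (e3 : Fin m ≃ {j // 3 = n j})
    (e1 : Fin r ≃ {j // ¬ 3 = n j}) (f : Fin l → ℂ) :
    ∑ j, f j = ∑ j, f (e3 j).1 + ∑ i, f (e1 i).1 := by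
  classical
  rw [← Fintype.sum_subtype_add_sum_subtype (fun j => 3 = n j) f]
  congr 1
  · exact (Equiv.sum_comp e3 fun j => f j.1).symm
  · exact (Equiv.sum_comp e1 fun j => f j.1).symm

end Pool.Agent.Q60.D3C
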