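import Mathlib
import Pool.Agent.Q60.D3C.Cnv

/-!
# Hodge classes on products of principally polarized abelian varieties
-/

set_option linter.unusedSectionVars false
set_option linter.unusedVariables false

namespace Pool.Agent.Q60.D3C

open Matrix Module Pool.Agent.H204R3.CM Pool.Agent.H204R3.SP Pool.Agent.W437.HC
  Pool.Agent.W437.HD Pool.Agent.W437.HP Pool.Agent.W437.HR Pool.Agent.W437.HQ
open Pool.Agent.Q60.D3 hiding Gen GC Good S_desc S_good_alt S_good_lin S_good_reindex S_good_mul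
  S_good_pull S_ins S_pol S_weil S_bal S_conv S_close Mon S_cmd

theorem chi_symm (μ : ℂ) (σ : ℂ ≃+* ℂ) : chi μ σ.symm = chi μ σ := by
  unfold chi
  have h : σ.symm μ = μ ↔ σ μ = μ := by
    constructor
    · intro h
      rw [RingEquiv.symm_apply_eq] at h
      exact h.symm
    · intro h
      rw [RingEquiv.symm_apply_eq]
      exact h.symm
  by_cases h1 : σ μ = μ
  · rw [if_pos h1, if_pos (h.2 h1)]
  · rw [if_neg h1, if_neg fun h2 => h1 (h.1 h2)]

theorem chi_neg (μ : ℂ) (σ : ℂ ≃+* ℂ) : chi (-μ) σ = chi μ σ := by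
  unfold chi
  have h : σ (-μ) = -μ ↔ σ μ = μ := by rw [map_neg, neg_inj]
  by_cases h1 : σ μ = μ
  · rw [if_pos h1, if_pos (h.2 h1)]
  · rw [if_neg h1, if_neg fun h2 => h1 (h.1 h2)]

section

variable {ι : Type} [Fintype ι] [DecidableEq ι] {g : ι → ℕ}
  (Z : ∀ i, Matrix (Fin (g i)) (Fin (g i)) ℂ) (hZ : ∀ i, (Z i)ᵀ = Z i)
  (hpos : ∀ i, (imM (Z i)).PosDef) (hZb : (bigD ℂ Z)ᵀ = bigD ℂ Z)
  (hposb : (imM (bigD ℂ Z)).PosDef)

/-- The property of the pieces of the threefolds. -/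
def Q3 {g : ℕ} (Z : Matrix (Fin g) (Fin g) ℂ) (hZ : Zᵀ = Z) (hpos : (imM Z).PosDef) (n : ℕ)
    (P : Pie Z n) : Prop :=
  ∃ hn : 3 = n, ∀ β : Bool, ∃ L : KOn (ofZ Z hZ hpos) 3,
    (∀ σ : ℂ ≃+* ℂ, ((L.s * chi L.μ σ : ℤ) : ℂ) = sgn β * (P.T ((DZ Z).map σ)).trace) ∧
    ∀ x : Fin 3 → Fin g ⊕ Fin g → ℚ, L.δ x =
      (Matrix.of fun a b : Fin 3 => P.zc β (Fin.cast hn b) (cV (x a))).det

/-- The property of the pieces of the abelian varieties of CM type. -/
def Q1 {g : ℕ} (Z : Matrix (Fin g) (Fin g) ℂ) (hZ : Zᵀ = Z) (hpos : (imM Z).PosDef) (n : ℕ)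
    (P : Pie Z n) : Prop :=
  ∃ hn : 1 = n, IsCM (ofZ Z hZ hpos) ∧ ∀ β : Bool,
    ∃ (w : (ℂ ≃+* ℂ) → ℤ) (γ : MultilinearMap ℚ (fun _ : Fin 1 => Fin g ⊕ Fin g → ℚ) ℂ),
    (∀ σ : ℂ ≃+* ℂ, ((w σ : ℤ) : ℂ) = sgn β * (P.T ((DZ Z).map σ.symm)).trace) ∧
    (∀ σ : ℂ ≃+* ℂ, HasWeight (perOne Z) (conjF σ γ) (w σ)) ∧
    ∀ x : Fin 1 → Fin g ⊕ Fin g → ℚ, γ x = P.zc β (Fin.cast hn 0) (cV (x 0))

/-- The products in the expansion are combinations of balanced monomials. -/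
theorem prod_mon (hwgt : S_wgt) {𝒦 : Type} (t : 𝒦 → ι) (n : 𝒦 → ℕ)
    (P : ∀ k, Pie (Z (t k)) (n k))
    (hQ : ∀ k, Q3 (Z (t k)) (hZ _) (hpos _) (n k) (P k) ∨
      Q1 (Z (t k)) (hZ _) (hpos _) (n k) (P k))
    {κ : Type} [Fintype κ] [DecidableEq κ] (f : (κ → Fin (NB g) ⊕ Fin (NB g)) → ℂ)
    (hf : f ∈ Frm.Prods (DZ (bigD ℂ Z)) (TP Z hZ hpos t n P) κ) :
    (fun v : κ → (ofZ (bigD ℂ Z) hZb hposb).H => evalF f (fun k => cV (v k))) ∈
      Submodule.span ℂ {y : (κ → (ofZ (bigD ℂ Z) hZb hposb).H) → ℂ |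
        ∃ M : Mon (ofZ (bigD ℂ Z) hZb hposb) κ, M.Balanced ∧ y = M.val} := by
  classical
  obtain ⟨l, p, k, β, e, φ, G, h1, h2, h3, rfl⟩ := hf
  have e1 : (fun v : κ → (ofZ (bigD ℂ Z) hZb hposb).H => evalF (fun w =>
      (∏ j, (Matrix.of fun a b : Fin (n (k j)) =>
        φ j a b (Pi.single (w (e (Sum.inl ⟨j, a⟩))) 1)).det) *
      ∏ s, G s (w (e (Sum.inr (s, 0)))) (w (e (Sum.inr (s, 1))))) (fun k => cV (v k))) =
      fun v => PP e (fun ja => eN (φ ja.1 ja.2)) G (fun k => cV (v k)) := by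
    funext v
    rw [evalF_prod]
    unfold PP
    simp only [eN_apply]
  rw [e1]
  have s1 := PP_span1 e (fun ja => {ψ | ∃ N : Matrix (Fin (g (t (k ja.1))) ⊕ Fin (g (t (k ja.1))))
      (Fin (NB g) ⊕ Fin (NB g)) ℚ, cK ℂ N * DZ (bigD ℂ Z) = DZ (Z (t (k ja.1))) * cK ℂ N ∧
        ψ = fP (P (k ja.1)) (β ja.1) (cK ℂ N)}) (fun ja => eN (φ ja.1 ja.2)) G
    (fun ja => span_fun (P (k ja.1)) (β ja.1) (φ ja.1 ja.2) (fun b σ y => by
      rw [h1, TP_sD])) (fun (v : κ → (ofZ (bigD ℂ Z) hZb hposb).H) k => cV (v k))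
  refine (Submodule.span_le.2 ?_) s1
  rintro _ ⟨ψ', hψ', rfl⟩
  have s2 := PP_span2 e {Y : Matrix (Fin (NB g) ⊕ Fin (NB g)) (Fin (NB g) ⊕ Fin (NB g)) ℂ |
      ∃ N : Matrix (Fin (NB g) ⊕ Fin (NB g)) (Fin (NB g) ⊕ Fin (NB g)) ℚ,
        (DZ (bigD ℂ Z))ᵀ * cK ℂ N + cK ℂ N * DZ (bigD ℂ Z) = 0 ∧ Y = cK ℂ N} ψ' G
    (fun s => span_bil (h2 s)) (fun (v : κ → (ofZ (bigD ℂ Z) hZb hposb).H) k => cV (v k))
  refine (Submodule.span_le.2 ?_) s2
  rintro _ ⟨G', hG', rfl⟩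
  choose N hN1 hN2 using hψ'
  choose N' hN'1 hN'2 using hG'
  have hn : ∀ j, 3 = n (k j) ∨ 1 = n (k j) := by
    intro j
    rcases hQ (k j) with ⟨h, -⟩ | ⟨h, -⟩
    · exact Or.inl h
    · exact Or.inr h
  obtain ⟨m, r, e3, e1', hone, E, hE1, hE2⟩ := exists_split (fun j => n (k j)) hn
  have h3' : ∀ j : Fin m, ∃ L : KOn (ofZ (Z (t (k (e3 j).1))) (hZ _) (hpos _)) 3,
      (∀ σ : ℂ ≃+* ℂ, ((L.s * chi L.μ σ : ℤ) : ℂ) =
        sgn (β (e3 j).1) * ((P (k (e3 j).1)).T ((DZ (Z (t (k (e3 j).1)))).map σ)).trace) ∧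
      ∀ x : Fin 3 → Fin (g (t (k (e3 j).1))) ⊕ Fin (g (t (k (e3 j).1))) → ℚ, L.δ x =
        (Matrix.of fun a b : Fin 3 =>
          (P (k (e3 j).1)).zc (β (e3 j).1) (Fin.cast (e3 j).2 b) (cV (x a))).det := by
    intro j
    rcases hQ (k (e3 j).1) with ⟨h, hh⟩ | ⟨h, -⟩
    · exact hh (β (e3 j).1)
    · exfalso
      have h5 := (e3 j).2
      omega
  have h1' : ∀ i : Fin r, IsCM (ofZ (Z (t (k (e1' i).1))) (hZ _) (hpos _)) ∧
      ∃ (w : (ℂ ≃+* ℂ) → ℤ) (γ : MultilinearMap ℚ (fun _ : Fin 1 =>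
        Fin (g (t (k (e1' i).1))) ⊕ Fin (g (t (k (e1' i).1))) → ℚ) ℂ),
      (∀ σ : ℂ ≃+* ℂ, ((w σ : ℤ) : ℂ) = sgn (β (e1' i).1) *
        ((P (k (e1' i).1)).T ((DZ (Z (t (k (e1' i).1)))).map σ.symm)).trace) ∧
      (∀ σ : ℂ ≃+* ℂ, HasWeight (perOne (Z (t (k (e1' i).1)))) (conjF σ γ) (w σ)) ∧
      ∀ x : Fin 1 → Fin (g (t (k (e1' i).1))) ⊕ Fin (g (t (k (e1' i).1))) → ℚ,
        γ x = (P (k (e1' i).1)).zc (β (e1' i).1) (Fin.cast (hone i) 0) (cV (x 0)) := by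
    intro i
    rcases hQ (k (e1' i).1) with ⟨h, -⟩ | ⟨h, hh, hh'⟩
    · exact absurd h (e1' i).2
    · exact ⟨hh, hh' (β (e1' i).1)⟩
  choose L hL1 hL2 using h3'
  choose hCM w γ hw1 hw2 hγ using h1'
  refine Submodule.subset_span ⟨{ m := m
                                  A := fun j => ofZ (Z (t (k (e3 j).1))) (hZ _) (hpos _)
                                  D := L
                                  h := fun j a => Matrix.mulVecLin
                                    (N ⟨(e3 j).1, Fin.cast (e3 j).2 a⟩)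
                                  hh := fun j a => hom_of_comm hZb hposb (hZ _) (hpos _) (hN1 _)
                                  r := r
                                  C := fun i => ofZ (Z (t (k (e1' i).1))) (hZ _) (hpos _)
                                  hC := hCM
                                  γ := γ
                                  w := w
                                  hw := hw2
                                  u := fun i => Matrix.mulVecLin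
                                    (N ⟨(e1' i).1, Fin.cast (hone i) 0⟩)
                                  hu := fun i => hom_of_comm hZb hposb (hZ _) (hpos _) (hN1 _)
                                  p := p
                                  β := fun s => evalM (bilc (N' s))
                                  hβ := fun s => bil_wgt hwgt hposb (hN'1 s)
                                  e := (E.sumCongr (Equiv.refl _)).trans e }, ?_, ?_⟩
  · intro σ
    have h5 := h3 σ.symm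
    rw [sum_split e3 e1'] at h5
    have h6 : ∀ j, ((L j).s * chi (L j).μ σ : ℤ) = (L j).s * chi (L j).μ σ.symm := fun j => by
      rw [chi_symm]
    change ∑ j, (L j).s * chi (L j).μ σ + ∑ i, w i σ = 0
    rw [Finset.sum_congr rfl fun j _ => h6 j]
    have h7 : (((∑ j, (L j).s * chi (L j).μ σ.symm + ∑ i, w i σ : ℤ)) : ℂ) = 0 := by
      rw [Int.cast_add, Int.cast_sum, Int.cast_sum, ← h5]
      congr 1
      · refine Finset.sum_congr rfl fun j _ => ?_
        rw [hL1, TP_sD]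
      · refine Finset.sum_congr rfl fun i _ => ?_
        rw [hw1, TP_sD]
    exact_mod_cast h7
  · funext v
    unfold PP Mon.val
    rw [prod_split e3 e1']
    congr 1
    · congr 1
      · refine Finset.prod_congr rfl fun j _ => ?_
        have h5 := hL2 j fun a => N ⟨(e3 j).1, Fin.cast (e3 j).2 a⟩ *ᵥ
          (v (e (Sum.inl ⟨(e3 j).1, Fin.cast (e3 j).2 a⟩)))
        refine Eq.trans ?_ (Eq.trans h5.symm ?_)
        · refine Eq.trans (det_cast (e3 j).2 _).symm ?_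
          congr 1
          ext a b
          rw [Matrix.of_apply, Matrix.of_apply, Matrix.of_apply]
          change ψ' ⟨(e3 j).1, Fin.cast (e3 j).2 a⟩ ((Fin.cast (e3 j).2 b : Fin _) : ℕ) _ = _
          rw [hN2, fP_apply, ← cV_mulVec]
        · change (L j).δ _ = (L j).δ _
          congr 1
          funext a
          change _ = N ⟨(e3 j).1, Fin.cast (e3 j).2 a⟩ *ᵥ
            (v (e (Sum.inl (E (Sum.inl (j, a))))))
          rw [hE1]
      · refine Finset.prod_congr rfl fun i _ => ?_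
        have h5 := hγ i fun a => N ⟨(e1' i).1, Fin.cast (hone i) 0⟩ *ᵥ
          (v (e (Sum.inl ⟨(e1' i).1, Fin.cast (hone i) 0⟩)))
        refine Eq.trans ?_ (Eq.trans h5.symm ?_)
        · refine Eq.trans (det_cast (hone i) _).symm ?_
          rw [Matrix.det_fin_one, Matrix.of_apply, Matrix.of_apply]
          change ψ' ⟨(e1' i).1, Fin.cast (hone i) 0⟩ ((Fin.cast (hone i) 0 : Fin _) : ℕ) _ = _
          rw [hN2, fP_apply, ← cV_mulVec]
        · change γ i _ = γ i _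
          congr 1
          funext a
          change _ = N ⟨(e1' i).1, Fin.cast (hone i) 0⟩ *ᵥ
            (v (e (Sum.inl (E (Sum.inr i)))))
          rw [hE2]
    · refine Finset.prod_congr rfl fun s _ => ?_
      have h5 := bil_eq (N' s) (fun a => v (e (Sum.inr (s, a))))
      refine Eq.trans ?_ h5
      rw [hN'2]

/-- The value of a monomial is multilinear. -/
theorem exists_val {X : AV} {κ : Type} [DecidableEq κ] (M : Mon X κ) :
    ∃ F : MultilinearMap ℚ (fun _ : κ => X.H) ℂ, ∀ v, F v = M.val v := by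
  obtain ⟨Ψ₁, h₁⟩ := exists_mm (R := ℚ) (T := (Fin M.m × Fin 3) ⊕ Fin M.r) (E := X.H)
    (κ₁ := fun _ : Fin M.m => Fin 3) (κ₂ := fun _ : Fin M.r => Fin 1)
    ((Equiv.sigmaEquivProd (Fin M.m) (Fin 3)).sumCongr
      ((Equiv.sigmaEquivProd (Fin M.r) (Fin 1)).trans (Equiv.prodUnique (Fin M.r) (Fin 1))))
    (fun j => (M.D j).δ.toMultilinearMap.compLinearMap (M.h j))
    (fun i => (M.γ i).compLinearMap fun _ => M.u i)
  obtain ⟨Ψ, h⟩ := exists_mm (R := ℚ) (T := κ) (E := X.H)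
    (κ₁ := fun _ : Unit => (Fin M.m × Fin 3) ⊕ Fin M.r) (κ₂ := fun _ : Fin M.p => Fin 2)
    (((((Equiv.sigmaEquivProd Unit ((Fin M.m × Fin 3) ⊕ Fin M.r)).trans
      (Equiv.punitProd _))).sumCongr (Equiv.sigmaEquivProd (Fin M.p) (Fin 2))).trans M.e)
    (fun _ => Ψ₁) (fun s => cxM (M.β s))
  refine ⟨Ψ, fun v => ?_⟩
  rw [h, Fintype.prod_unique, h₁]
  rfl

/-- Combinations of balanced monomials are good. -/
theorem span_good {X : AV} {κ : Type} [Fintype κ] [DecidableEq κ] (hbal : S_bal)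
    (hlin : S_good_lin) (y : (κ → X.H) → ℂ)
    (hy : y ∈ Submodule.span ℂ {y : (κ → X.H) → ℂ | ∃ M : Mon X κ, M.Balanced ∧ y = M.val}) :
    ∃ F : MultilinearMap ℚ (fun _ : κ => X.H) ℂ, (∀ v, F v = y v) ∧ Good X κ F := by
  induction hy using Submodule.span_induction with
  | mem y hy =>
    obtain ⟨M, hM, rfl⟩ := hy
    obtain ⟨F, hF⟩ := exists_val M
    exact ⟨F, hF, hbal _ κ M hM F hF⟩
  | zero => exact ⟨0, fun v => rfl, (hlin _ κ).2.2⟩
  | add x y _ _ hx hy =>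
    obtain ⟨F, hF, hF'⟩ := hx
    obtain ⟨F₁, hF₁, hF₁'⟩ := hy
    exact ⟨F + F₁, fun v => by rw [_root_.add_apply, hF, hF₁]; rfl,
      (hlin _ κ).1 _ _ hF' hF₁'⟩
  | smul c x _ hx =>
    obtain ⟨F, hF, hF'⟩ := hx
    exact ⟨c • F, fun v => by rw [_root_.smul_apply, hF]; rfl, (hlin _ κ).2.1 _ _ hF'⟩

/-- Rational forms which are combinations of balanced monomials are generated. -/
theorem gen_of_span {X : AV} {κ : Type} [Fintype κ] [DecidableEq κ] (hbal : S_bal)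
    (hlin : S_good_lin) (halt : S_good_alt) (hdesc : S_desc) (f : X.H [⋀^κ]→ₗ[ℚ] ℚ)
    (h : (fun v : κ → X.H => ((f v : ℚ) : ℂ)) ∈
      Submodule.span ℂ {y : (κ → X.H) → ℂ | ∃ M : Mon X κ, M.Balanced ∧ y = M.val}) :
    Gen X κ f := by
  obtain ⟨F, hF, hG⟩ := span_good hbal hlin _ h
  have h6 : F = (cx f).toMultilinearMap := by
    refine MultilinearMap.ext fun v => ?_
    rw [hF]
    rfl
  rw [h6] at hG
  exact hdesc _ κ f ((halt _ κ _).1 hG)

/-- The data of a factor. -/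
def HasP {g : ℕ} (Z : Matrix (Fin g) (Fin g) ℂ) (hZ : Zᵀ = Z) (hpos : (imM Z).PosDef) : Prop :=
  ∃ (A : Type) (_ : Fintype A) (n : A → ℕ) (P : ∀ a, Pie Z (n a)),
    (∀ a, Q3 Z hZ hpos (n a) (P a) ∨ Q1 Z hZ hpos (n a) (P a)) ∧
      ∀ y, y = ∑ a, ∑ β : Bool, ∑ c, (P a).zc β c y • (P a).zb β c

/-- The values of a Hodge class. -/
theorem span_of_hodge (hgrs : S_grs) (hsps : S_sps) (hdarb : S_darb) (hexp : S_exp)
    (hwgt : S_wgt) (hish : S_ish)
    (hdata : ∀ i, HasPcs (DZ (Z i)) ∨ HasP (Z i) (hZ i) (hpos i)) {κ : Type} [Fintype κ]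
    [DecidableEq κ]
    (f : (Fin (NB g) ⊕ Fin (NB g) → ℚ) [⋀^κ]→ₗ[ℚ] ℚ) (hf : IsHodge (perOne (bigD ℂ Z)) f) :
    (fun v : κ → Fin (NB g) ⊕ Fin (NB g) → ℚ => ((f v : ℚ) : ℂ)) ∈
      Submodule.span ℂ {y : (κ → Fin (NB g) ⊕ Fin (NB g) → ℚ) → ℂ |
        ∃ M : Mon (ofZ (bigD ℂ Z) hZb hposb) κ, M.Balanced ∧ y = M.val} := by
  obtain ⟨𝒦, t, n, P, hQ, hK⟩ := hodge_span Z hZ hpos hgrs hsps hdarb hexp
    (fun i n P => Q3 (Z i) (hZ i) (hpos i) n P ∨ Q1 (Z i) (hZ i) (hpos i) n P) hdata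
  have h1 := hK κ _ (hish _ _ hposb κ f hf)
  have h2 := Submodule.mem_map_of_mem (f := EV (Fin (NB g) ⊕ Fin (NB g)) κ) h1
  rw [Submodule.map_span] at h2
  have h3 : (fun v : κ → Fin (NB g) ⊕ Fin (NB g) → ℚ => ((f v : ℚ) : ℂ)) =
      EV (Fin (NB g) ⊕ Fin (NB g)) κ
        (cst ℂ fun I : κ → Fin (NB g) ⊕ Fin (NB g) => f fun k => Pi.single (I k) 1) :=
    funext fun v => (evalF_cst f v).symm
  rw [h3]
  refine (Submodule.span_le.2 ?_) h2
  rintro _ ⟨f', hf', rfl⟩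
  exact prod_mon Z hZ hpos hZb hposb hwgt t n P hQ f' hf'

/-- Hodge classes on products of principally polarized abelian varieties. -/
theorem gen_of_hodge (hgrs : S_grs) (hsps : S_sps) (hdarb : S_darb) (hexp : S_exp)
    (hwgt : S_wgt) (hish : S_ish)
    (hbal : S_bal) (hlin : S_good_lin) (halt : S_good_alt) (hdesc : S_desc)
    (hdata : ∀ i, HasPcs (DZ (Z i)) ∨ HasP (Z i) (hZ i) (hpos i)) {κ : Type} [Fintype κ]
    (f : (ofZ (bigD ℂ Z) hZb hposb).H [⋀^κ]→ₗ[ℚ] ℚ)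
    (hf : IsHodge (ofZ (bigD ℂ Z) hZb hposb).per f) :
    Gen (ofZ (bigD ℂ Z) hZb hposb) κ f := by
  classical
  exact gen_of_span hbal hlin halt hdesc f
    (span_of_hodge Z hZ hpos hZb hposb hgrs hsps hdarb hexp hwgt hish hdata f hf)

end

end Pool.Agent.Q60.D3C
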