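import Mathlib
import Pool.Agent.Q60.D3C.Stm

set_option autoImplicit false

/-!
# Project D3, job WEIL: the products of determinants on a threefold and an elliptic curve
-/

namespace Pool.Agent.Q60.D3C.G225

open Pool.Agent.H204R3.CM 
open Pool.Agent.Q60.D3 hiding Gen GC Good S_desc S_good_alt S_good_lin S_good_reindex S_good_mul
  S_good_pull S_ins S_pol S_weil S_bal S_conv S_close Mon S_cmd

/-- The values of a multilinear form lie in a finite dimensional rational space. -/
lemma exists_fin {H κ : Type} [AddCommGroup H] [Module ℚ H] [FiniteDimensional ℚ H] [Finite κ]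
    (F : MultilinearMap ℚ (fun _ : κ => H) ℂ) :
    ∃ (r : ℕ) (c : Fin r → ℂ) (lam : Fin r → (ℂ →ₗ[ℚ] ℚ)), ∀ v, F v = ∑ i, c i * ((lam i (F v) : ℚ) : ℂ) := by
  classical
  have := Fintype.ofFinite κ
  let b := Module.finBasis ℚ H
  let W : Submodule ℚ ℂ := Submodule.span ℚ (Set.range fun f : κ → Fin (Module.finrank ℚ H) => F fun k => b (f k))
  have hW : FiniteDimensional ℚ W := FiniteDimensional.span_of_finite ℚ (Set.finite_range _)
  have hF : ∀ v, F v ∈ W := by
    have h1 : W.mkQ.compMultilinearMap F = 0 := by
      refine Module.Basis.ext_multilinear (fun _ => b) fun f => ?_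
      rw [LinearMap.compMultilinearMap_apply, zero_apply, Submodule.mkQ_apply,
        Submodule.Quotient.mk_eq_zero]
      exact Submodule.subset_span ⟨f, rfl⟩
    intro v
    have h2 := congrArg (fun G => G v) h1
    simp only [LinearMap.compMultilinearMap_apply, zero_apply, Submodule.mkQ_apply,
      Submodule.Quotient.mk_eq_zero] at h2
    exact h2
  let c := Module.finBasis ℚ W
  have hext : ∀ i, ∃ lam : ℂ →ₗ[ℚ] ℚ, lam.comp W.subtype = c.coord i := fun i =>
    LinearMap.exists_extend (c.coord i)
  choose lam hlam using hext
  refine ⟨_, fun i => (c i : ℂ), lam, fun v => ?_⟩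
  have h3 := c.sum_repr ⟨F v, hF v⟩
  have h4 := congrArg (fun x : W => (x : ℂ)) h3
  simp only [Submodule.coe_sum, Submodule.coe_smul] at h4
  rw [← h4]
  refine Finset.sum_congr rfl fun i _ => ?_
  have h5 : lam i (F v) = c.repr ⟨F v, hF v⟩ i := by
    have := congrArg (fun g => g ⟨F v, hF v⟩) (hlam i)
    simpa using this
  rw [h4, h5, Rat.smul_def, mul_comm]

lemma mem_GC {X : AV} {κ : Type} [Finite κ] (F : X.H [⋀^κ]→ₗ[ℚ] ℂ)
    (h : ∀ lam : ℂ →ₗ[ℚ] ℚ, Gen X κ (lam.compAlternatingMap F)) : F ∈ GC X κ := by
  obtain ⟨r, c, lam, hF⟩ := exists_fin F.toMultilinearMap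
  have e : F = ∑ i, c i • cx ((lam i).compAlternatingMap F) := by
    ext v
    have := hF v
    rw [AlternatingMap.coe_multilinearMap] at this
    have hs : ∀ (S : Finset (Fin r)) (g : Fin r → (X.H [⋀^κ]→ₗ[ℚ] ℂ)), (∑ i ∈ S, g i) v = ∑ i ∈ S, g i v := by
      intro S g
      classical
      induction S using Finset.induction_on with
      | empty => simp
      | insert a S ha ih => rw [Finset.sum_insert ha, Finset.sum_insert ha, AlternatingMap.add_apply, ih]
    rw [hs]
    exact this
  rw [e]
  exact Submodule.sum_mem _ fun i _ => Submodule.smul_mem _ _ (Submodule.subset_span ⟨_, h (lam i), rfl⟩)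

/-- **JOB WEIL.** -/
theorem weil (_h1 : S_good_alt) (_h2 : S_good_lin) (_h3 : S_good_reindex) (h4 : S_L0) (h5 : S_hodge)
    (h6 : S_wt) : S_weil := by
  classical
  intro A E K L hLd hLμ hLs G hG
  have hd0 : 0 < K.d := Nat.pos_of_ne_zero (fun h => by have := K.hd; rw [h] at this; exact not_squarefree_zero this)
  obtain ⟨Φ, hΦ⟩ : ∃ Φ : (A.prod E).H [⋀^Fin 3 ⊕ Fin 1]→ₗ[ℚ] ℂ, Φ = MultilinearMap.alternatization G := ⟨_, rfl⟩
  unfold Good
  rw [← hΦ]
  have hG' : ∀ v : Fin 3 ⊕ Fin 1 → (A.prod E).H,
      G v = K.δ (fun k => (v (Sum.inl k)).1) * L.δ (fun k => (v (Sum.inr k)).2) := hG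
  have hΦv : ∀ v, Φ v = ∑ τ : Equiv.Perm (Fin 3 ⊕ Fin 1), Equiv.Perm.sign τ • G (fun k => v (τ k)) := by
    intro v
    rw [hΦ, MultilinearMap.alternatization_apply]
    rfl
  obtain ⟨h, hh⟩ : ∃ h : (A.prod E).H →ₗ[ℚ] (A.prod E).H, h = LinearMap.prodMap K.φ L.φ := ⟨_, rfl⟩
  have hhv : ∀ x : (A.prod E).H, h x = (K.φ x.1, L.φ x.2) := by
    intro x
    rw [hh]
    rfl
  have hhom : IsHom (A.prod E) (A.prod E) h := by
    obtain ⟨C1, hC1⟩ := K.hφ
    obtain ⟨C2, hC2⟩ := L.hφ
    refine ⟨LinearMap.prodMap C1 C2, fun w => ?_⟩
    rw [hhv]
    exact Prod.ext (hC1 w.1) (hC2 w.2)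
  have hGeig : ∀ (v : Fin 3 ⊕ Fin 1 → (A.prod E).H) (k : Fin 3 ⊕ Fin 1),
      G (Function.update v k (h (v k))) = K.μ * G v := by
    intro v k
    rw [hG', hG']
    rcases k with k | k
    · have e1 : (fun l => (Function.update v (Sum.inl k) (h (v (Sum.inl k))) (Sum.inl l)).1) =
          Function.update (fun l => (v (Sum.inl l)).1) k (K.φ (v (Sum.inl k)).1) := by
        funext l
        by_cases hl : l = k
        · subst hl
          rw [Function.update_self, Function.update_self, hhv]
        · rw [Function.update_of_ne (by simpa using hl), Function.update_of_ne hl]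
      have e2 : (fun l => (Function.update v (Sum.inl k) (h (v (Sum.inl k))) (Sum.inr l)).2) =
          fun l => (v (Sum.inr l)).2 := by
        funext l
        rw [Function.update_of_ne (by simp)]
      rw [e1, e2, K.eig (fun l => (v (Sum.inl l)).1) k]
      ring
    · have e1 : (fun l => (Function.update v (Sum.inr k) (h (v (Sum.inr k))) (Sum.inr l)).2) =
          Function.update (fun l => (v (Sum.inr l)).2) k (L.φ (v (Sum.inr k)).2) := by
        funext l
        by_cases hl : l = k
        · subst hl
          rw [Function.update_self, Function.update_self, hhv]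
        · rw [Function.update_of_ne (by simpa using hl), Function.update_of_ne hl]
      have e2 : (fun l => (Function.update v (Sum.inr k) (h (v (Sum.inr k))) (Sum.inl l)).1) =
          fun l => (v (Sum.inl l)).1 := by
        funext l
        rw [Function.update_of_ne (by simp)]
      rw [e1, e2, L.eig (fun l => (v (Sum.inr l)).2) k, hLμ]
      ring
  have hΦeig : ∀ (v : Fin 3 ⊕ Fin 1 → (A.prod E).H) (k : Fin 3 ⊕ Fin 1),
      Φ (Function.update v k (h (v k))) = K.μ * Φ v := by
    intro v k
    rw [hΦv, hΦv, Finset.mul_sum]
    refine Finset.sum_congr rfl fun τ _ => ?_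
    have e : (fun l => Function.update v k (h (v k)) (τ l)) =
        Function.update (fun l => v (τ l)) (τ.symm k) (h ((fun l => v (τ l)) (τ.symm k))) := by
      funext l
      by_cases hl : τ l = k
      · have : l = τ.symm k := by rw [← hl, Equiv.symm_apply_apply]
        subst this
        rw [hl, Function.update_self, Function.update_self]
        simp
      · rw [Function.update_of_ne hl, Function.update_of_ne]
        intro h'
        rw [h', Equiv.apply_symm_apply] at hl
        exact hl rfl
    rw [e, hGeig, mul_smul_comm]
  -- the weights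
  have hw : ∀ σ : ℂ ≃+* ℂ, HasWeight (A.prod E).per (conjF σ Φ.toMultilinearMap) 0 := by
    intro σ
    obtain ⟨ψ1, hψ1, hz1⟩ := h6 A 3 K σ
    obtain ⟨ψ2, hψ2, hz2⟩ := h6 E 1 L σ
    rw [hLμ, hLs] at hz2
    let Ψ : MultilinearMap ℝ (fun _ : Fin 3 ⊕ Fin 1 => (A.prod E).T) ℂ :=
      { toFun := fun u => ψ1 (fun k => (u (Sum.inl k)).1) * ψ2 (fun k => (u (Sum.inr k)).2)
        map_update_add' := by
          intro _ m i x y
          rcases i with i | i
          · have e1 : ∀ z : (A.prod E).T, (fun l => (Function.update m (Sum.inl i) z (Sum.inl l)).1) =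
                Function.update (fun l => (m (Sum.inl l)).1) i z.1 := by
              intro z
              funext l
              by_cases hl : l = i
              · subst hl
                rw [Function.update_self, Function.update_self]
              · rw [Function.update_of_ne (by simpa using hl), Function.update_of_ne hl]
            have e2 : ∀ z : (A.prod E).T, (fun l => (Function.update m (Sum.inl i) z (Sum.inr l)).2) =
                fun l => (m (Sum.inr l)).2 := by
              intro z
              funext l
              rw [Function.update_of_ne (by simp)]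
            rw [e1, e1, e1, e2, e2, e2]
            change ψ1 (Function.update (fun l => (m (Sum.inl l)).1) i (x.1 + y.1)) * _ = _
            rw [MultilinearMap.map_update_add, add_mul]
          · have e1 : ∀ z : (A.prod E).T, (fun l => (Function.update m (Sum.inr i) z (Sum.inr l)).2) =
                Function.update (fun l => (m (Sum.inr l)).2) i z.2 := by
              intro z
              funext l
              by_cases hl : l = i
              · subst hl
                rw [Function.update_self, Function.update_self]
              · rw [Function.update_of_ne (by simpa using hl), Function.update_of_ne hl]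
            have e2 : ∀ z : (A.prod E).T, (fun l => (Function.update m (Sum.inr i) z (Sum.inl l)).1) =
                fun l => (m (Sum.inl l)).1 := by
              intro z
              funext l
              rw [Function.update_of_ne (by simp)]
            rw [e1, e1, e1, e2, e2, e2]
            change _ * ψ2 (Function.update (fun l => (m (Sum.inr l)).2) i (x.2 + y.2)) = _
            rw [MultilinearMap.map_update_add, mul_add]
        map_update_smul' := by
          intro _ m i c x
          rcases i with i | i
          · have e1 : ∀ z : (A.prod E).T, (fun l => (Function.update m (Sum.inl i) z (Sum.inl l)).1) =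
                Function.update (fun l => (m (Sum.inl l)).1) i z.1 := by
              intro z
              funext l
              by_cases hl : l = i
              · subst hl
                rw [Function.update_self, Function.update_self]
              · rw [Function.update_of_ne (by simpa using hl), Function.update_of_ne hl]
            have e2 : ∀ z : (A.prod E).T, (fun l => (Function.update m (Sum.inl i) z (Sum.inr l)).2) =
                fun l => (m (Sum.inr l)).2 := by
              intro z
              funext l
              rw [Function.update_of_ne (by simp)]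
            rw [e1, e1, e2, e2]
            change ψ1 (Function.update (fun l => (m (Sum.inl l)).1) i (c • x.1)) * _ = _
            rw [MultilinearMap.map_update_smul, smul_mul_assoc]
          · have e1 : ∀ z : (A.prod E).T, (fun l => (Function.update m (Sum.inr i) z (Sum.inr l)).2) =
                Function.update (fun l => (m (Sum.inr l)).2) i z.2 := by
              intro z
              funext l
              by_cases hl : l = i
              · subst hl
                rw [Function.update_self, Function.update_self]
              · rw [Function.update_of_ne (by simpa using hl), Function.update_of_ne hl]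
            have e2 : ∀ z : (A.prod E).T, (fun l => (Function.update m (Sum.inr i) z (Sum.inl l)).1) =
                fun l => (m (Sum.inl l)).1 := by
              intro z
              funext l
              rw [Function.update_of_ne (by simp)]
            rw [e1, e1, e2, e2]
            change _ * ψ2 (Function.update (fun l => (m (Sum.inr l)).2) i (c • x.2)) = _
            rw [MultilinearMap.map_update_smul, mul_smul_comm] }
    have hΨ : ∀ u, Ψ u = ψ1 (fun k => (u (Sum.inl k)).1) * ψ2 (fun k => (u (Sum.inr k)).2) := fun u => rfl
    have hΨG : ∀ v : Fin 3 ⊕ Fin 1 → (A.prod E).H, Ψ (fun k => (A.prod E).per (v k)) = σ (G v) := by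
      intro v
      rw [hΨ, hG', map_mul]
      have e1 := hψ1 (fun k => (v (Sum.inl k)).1)
      have e2 := hψ2 (fun k => (v (Sum.inr k)).2)
      exact congrArg₂ (· * ·) e1 e2
    have hΨz : ∀ z : ℂ, ‖z‖ = 1 → ∀ u, Ψ (fun l => z • u l) = Ψ u := by
      intro z hz u
      rw [hΨ, hΨ]
      have e1 := hz1 z hz (fun k => (u (Sum.inl k)).1)
      have e2 := hz2 z hz (fun k => (u (Sum.inr k)).2)
      have hz0 : z ≠ 0 := by
        intro h'
        rw [h', norm_zero] at hz
        exact zero_ne_one hz
      have e3 : z ^ (K.s * chi K.μ σ) * z ^ (-K.s * chi K.μ σ) = 1 := by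
        rw [← zpow_add₀ hz0]
        have : K.s * chi K.μ σ + -K.s * chi K.μ σ = 0 := by ring
        rw [this, zpow_zero]
      calc ψ1 (fun k => (z • u (Sum.inl k)).1) * ψ2 (fun k => (z • u (Sum.inr k)).2)
          = (z ^ (K.s * chi K.μ σ) * ψ1 (fun k => (u (Sum.inl k)).1)) *
            (z ^ (-K.s * chi K.μ σ) * ψ2 (fun k => (u (Sum.inr k)).2)) := congrArg₂ (· * ·) e1 e2
        _ = (z ^ (K.s * chi K.μ σ) * z ^ (-K.s * chi K.μ σ)) *
            (ψ1 (fun k => (u (Sum.inl k)).1) * ψ2 (fun k => (u (Sum.inr k)).2)) := by ring
        _ = _ := by rw [e3, one_mul]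
    have hA : ∀ u, (MultilinearMap.alternatization Ψ).toMultilinearMap u =
        ∑ τ : Equiv.Perm (Fin 3 ⊕ Fin 1), Equiv.Perm.sign τ • Ψ (fun k => u (τ k)) := by
      intro u
      rw [AlternatingMap.coe_multilinearMap, MultilinearMap.alternatization_apply]
      rfl
    refine ⟨(MultilinearMap.alternatization Ψ).toMultilinearMap, fun v => ?_, fun z hz u => ?_⟩
    · rw [hA]
      have e4 : conjF σ Φ.toMultilinearMap v = σ (Φ v) := rfl
      rw [e4, hΦv, map_sum]
      refine Finset.sum_congr rfl fun τ _ => ?_
      rw [hΨG (fun k => v (τ k))]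
      rcases Int.units_eq_one_or (Equiv.Perm.sign τ) with hs | hs
      · rw [hs, one_smul, one_smul]
      · rw [hs, Units.neg_smul, Units.neg_smul, one_smul, one_smul, map_neg]
    · rw [hA, hA, zpow_zero, one_mul]
      refine Finset.sum_congr rfl fun τ _ => ?_
      rw [hΨz z hz (fun k => u (τ k))]
  -- the Weil classes
  refine mem_GC Φ fun lam => ?_
  have hHodge : IsHodge (A.prod E).per (lam.compAlternatingMap Φ) := by
    rw [← h5]
    exact h4 (A.prod E) _ Φ.toMultilinearMap hw lam
  let e : Fin 4 ≃ Fin 3 ⊕ Fin 1 := (finSumFinEquiv : Fin 3 ⊕ Fin 1 ≃ Fin (3 + 1)).symm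
  have hW : IsWeilClass (A.prod E) ((lam.compAlternatingMap Φ).domDomCongr e.symm) := by
    refine ⟨?_, ?_, K.d, h, hd0, hhom, fun w => ?_, fun v k l => ?_⟩
    · change Module.finrank ℂ (A.T × E.T) = 4
      rw [Module.finrank_prod, K.dimA, L.dimA]
    · obtain ⟨ψ, hψ, hz⟩ := hHodge
      refine ⟨ψ.domDomCongr e.symm, fun v => ?_, fun z hz' u => ?_⟩
      · exact hψ (fun k => v (e.symm k))
      · exact hz z hz' (fun k => u (e.symm k))
    · rw [hhv, hhv]
      refine Prod.ext (K.sq w.1) ?_
      have := L.sq w.2
      rw [hLd] at this
      exact this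
    · have key : ∀ k : Fin 4, ((lam.compAlternatingMap Φ).domDomCongr e.symm)
          (Function.update v k (h (v k))) = lam (K.μ * Φ (fun i => v (e.symm i))) := by
        intro k
        have e5 : (fun i => Function.update v k (h (v k)) (e.symm i)) =
            Function.update (fun i => v (e.symm i)) (e k) (h ((fun i => v (e.symm i)) (e k))) := by
          funext i
          by_cases hi : e.symm i = k
          · have : i = e k := by rw [← hi, Equiv.apply_symm_apply]
            subst this
            rw [hi, Function.update_self, Function.update_self]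
            simp
          · rw [Function.update_of_ne hi, Function.update_of_ne]
            intro h'
            rw [h', Equiv.symm_apply_apply] at hi
            exact hi rfl
        have e6 : ((lam.compAlternatingMap Φ).domDomCongr e.symm) (Function.update v k (h (v k))) =
            lam (Φ (fun i => Function.update v k (h (v k)) (e.symm i))) := rfl
        rw [e6, e5, hΦeig]
      rw [key k, key l]
  have h7 := Gen.reindex e _ (Gen.weil _ hW)
  have h8 : (((lam.compAlternatingMap Φ).domDomCongr e.symm).domDomCongr e) = lam.compAlternatingMap Φ := by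
    ext v
    change lam (Φ (fun i => v (e (e.symm i)))) = lam (Φ v)
    simp
  rw [h8] at h7
  exact h7

end Pool.Agent.Q60.D3C.G225
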