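import Mathlib
import Pool.Agent.Q60.D3.Fine
import Pool.Agent.Q60.D3C.Top
import Pool.Agent.Q60.D3C.Gen1
import Pool.Agent.Q60.D3C.Pol
import Pool.Agent.Q60.D3C.Ins
import Pool.Agent.Q60.D3C.Weil
import Pool.Agent.Q177.D3C.Close
import Pool.Agent.Q237.D3C.Cwt
import Pool.Agent.Q237.D3C.Cz
import Pool.Agent.Q237.D3C.Main
import Pool.Agent.Q280.D3C.Bal
import Pool.Agent.Q280.D3C.Cmd
import Pool.Agent.Q280.D3C.Conv

/-!
# Hodge classes on products of abelian varieties of dimension at most three or of CM type: the lemmas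
put together
-/

namespace Pool.Agent.Q60.D3C

open Pool.Agent.H204R3.CM

theorem ok_ins : S_ins :=
  G6.ins G176.good_alt G176.good_lin G176.good_reindex G176.good_mul

theorem ok_weil : S_weil :=
  G225.weil G176.good_alt G176.good_lin G176.good_reindex Pool.Agent.Q210.D3.L0
    Pool.Agent.Q210.D3.hodge Pool.Agent.Q225.D3.wt

theorem ok_bal : S_bal :=
  Pool.Agent.Q280.D3C.bal G176.good_alt G176.good_lin G176.good_reindex G176.good_mul
    G176.good_pull ok_ins G176.pol' ok_weil Pool.Agent.Q210.D3.L0 Pool.Agent.Q210.D3.hodge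
    Pool.Agent.Q225.D3.wt Pool.Agent.Q251.D3.t_ELL Pool.Agent.Q237.D3C.ecm Pool.Agent.Q237.D3C.pcm

/-- The theorem on Hodge classes. -/
theorem hodge_dim_three_cm {ι : Type} [Finite ι] {X : Q60.D3.AV} {A : ι → Q60.D3.AV}
    (hX : Q60.D3.IsIsogenousToProd X A) (hs : ∀ i, Q60.D3.IsSimple (A i))
    (hd : ∀ i, Module.finrank ℂ (A i).T ≤ 3 ∨ Q60.D3.IsCM (A i)) {κ : Type} [Finite κ]
    (f : X.H [⋀^κ]→ₗ[ℚ] ℚ) : IsHodge X.per f ↔ Gen X κ f :=
  ⟨fun hf => top Q60.D3.ok_grs Pool.Agent.Q176.D3.sps Pool.Agent.Q176.D3.darb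
    Pool.Agent.Q180.D3.exp_mem Pool.Agent.Q144.D3.chiz'
    (Pool.Agent.Q225.D3.kon Pool.Agent.Q280.D3.wgt) Pool.Agent.Q280.D3.wgt Pool.Agent.Q280.D3.ish
    ok_bal G176.good_lin G176.good_alt G176.desc (Pool.Agent.Q6.D3.tri Pool.Agent.Q144.D3.noe)
    (Pool.Agent.Q144.D3.full Pool.Agent.Q144.D3.noe) Pool.Agent.Q237.D3C.cz
    (Pool.Agent.Q237.D3C.cwt Pool.Agent.Q280.D3.wgt)
    (Pool.Agent.Q177.D3C.close Q60.D3.NF.nf Pool.Agent.Q180.D3.cmd Pool.Agent.Q280.D3C.Cmd.cmd)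
    ι X A hX hs hd κ f hf,
  fun hf => Pool.Agent.Q280.D3C.conv X κ f hf inferInstance⟩

end Pool.Agent.Q60.D3C
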